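import Pool.Agent.R944.TO.Stm

/-!
TO-Chain: long gaps at bounded distance give bounded components.
-/

universe u

namespace Pool.Agent.R944.TO.Chain

open Pool.Agent.R944.TO

theorem main : S_CHAIN.{u} := by
  intro X _ T q D hE hgap x y hxy
  rw [SimpleGraph.reachable_iff_reflTransGen] at hxy
  obtain ⟨⟨g, hg0, hgD, hg⟩, ⟨g', hgD', hg0', hg'⟩⟩ := hgap x
  rcases Nat.eq_zero_or_pos q with hq | hq
  · have hyx : (y : X) = (x : X) := by
      induction hxy with
      | refl => rfl
      | @tail b c hb hbc ih =>
        have hadj : (near (schreier 1 X) q).Adj (b : X) (c : X) := hbc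
        obtain ⟨hne, hle⟩ := hadj
        obtain ⟨j, hj, hc⟩ := (hE _ _ _).1 hle
        have hj0 : j = 0 := by
          rw [hq] at hj
          exact abs_eq_zero.1 (le_antisymm (by simpa using hj) (abs_nonneg j))
        exfalso
        apply hne
        rw [hc, hj0]
        exact (zero_vadd (Fin 1 → ℤ) (b : X)).symm
    rw [hyx, SimpleGraph.edist_self]
    exact zero_le
  · have hgpos : 0 < g := by
      rcases lt_or_eq_of_le hg0 with h | h
      · exact h
      · exfalso
        have h1 := hg 0 le_rfl (by exact_mod_cast hq)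
        apply h1
        rw [← h]
        have h2 : (fun _ : Fin 1 => (0 : ℤ) + 0) +ᵥ (x : X) = (x : X) := by
          have h3 : (fun _ : Fin 1 => (0 : ℤ) + 0) = 0 := by
            funext i
            simp
          rw [h3, zero_vadd]
        rw [h2]
        exact x.2
    have key : ∃ c : ℤ, g' + q ≤ c ∧ c < g ∧ (y : X) = (fun _ : Fin 1 => c) +ᵥ (x : X) := by
      induction hxy with
      | refl =>
        refine ⟨0, hg0', hgpos, ?_⟩
        exact (zero_vadd (Fin 1 → ℤ) (x : X)).symm
      | @tail b z hb hbz ih =>
        obtain ⟨c, hc1, hc2, hc3⟩ := ih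
        have hadj : (near (schreier 1 X) q).Adj (b : X) (z : X) := hbz
        obtain ⟨_, hle⟩ := hadj
        obtain ⟨j, hj, hz⟩ := (hE _ _ _).1 hle
        obtain ⟨hj1, hj2⟩ := abs_le.1 hj
        have hz2 : (z : X) = (fun _ : Fin 1 => j + c) +ᵥ (x : X) := by
          rw [hz, hc3, vadd_vadd]
          rfl
        refine ⟨j + c, ?_, ?_, hz2⟩
        · by_contra hcon
          have h1 := hg' (j + c - g') (by omega) (by omega)
          apply h1
          rw [show (g' + (j + c - g')) = j + c by ring, ← hz2]
          exact z.2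
        · by_contra hcon
          have h1 := hg (j + c - g) (by omega) (by omega)
          apply h1
          rw [show (g + (j + c - g)) = j + c by ring, ← hz2]
          exact z.2
    obtain ⟨c, hc1, hc2, hc3⟩ := key
    refine (hE _ _ _).2 ⟨c, ?_, hc3⟩
    rw [abs_le]
    constructor <;> omega

end Pool.Agent.R944.TO.Chain
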