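import Pool.Agent.R944.TO.Stm

/-!
# TO-Closed: the layers are closed (helper179)
-/

open Set TopologicalSpace

universe u

namespace Pool.Agent.R944.TO.Closed

open Pool.Agent.R944.TO

theorem itin_shift {X : Type u} [TopologicalSpace X] {φ : ℤ → X → X} (hφ : IsFlow φ)
    (N : ℕ → Set X) (t : ℤ) (x : X) : itin φ N (φ t x) = sh (itin φ N x) t := by
  funext j
  ext k
  change φ k (φ t x) ∈ N j ↔ φ (k + t) x ∈ N j
  rw [hφ.add]

theorem main : S_SHIFT → S_LOC.{u} → S_CLOSED.{u} := by
  intro hS hL X _ φ hφ L B N hN hBas n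
  have hloc := hL X φ hφ L B N hN hBas
  have hC : ∀ j, IsClopen {x | (0 : ℤ) ∈ C (itin φ N x) j} := by
    intro j
    exact (hloc j 1).2.2.union (hloc j 3).2.2
  have hA0 : ∀ m, IsClosed {x | (0 : ℤ) ∈ Alive (itin φ N x) m} := by
    intro m
    have e : {x | (0 : ℤ) ∈ Alive (itin φ N x) m} =
        ⋂ j, ⋂ (_ : m ≤ j), {x | (0 : ℤ) ∈ C (itin φ N x) j}ᶜ := by
      ext x
      simp only [mem_iInter, mem_compl_iff, mem_setOf_eq]
      exact Iff.rfl
    rw [e]
    exact isClosed_iInter fun j => isClosed_iInter fun _ => (hC j).compl.isClosed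
  have hA : ∀ m (t : ℤ), IsClosed {x | t ∈ Alive (itin φ N x) m} := by
    intro m t
    have e : {x | t ∈ Alive (itin φ N x) m} =
        (φ t) ⁻¹' {y | (0 : ℤ) ∈ Alive (itin φ N y) m} := by
      ext x
      change t ∈ Alive (itin φ N x) m ↔ (0 : ℤ) ∈ Alive (itin φ N (φ t x)) m
      rw [itin_shift hφ]
      have := (hS (itin φ N x) t).2.2.2.1 m 0
      rw [zero_add] at this
      exact this.symm
    rw [e]
    exact (hA0 m).preimage (hφ.cont t)
  cases n with
  | zero => exact hA0 0
  | succ m =>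
    have h3 : IsClosed {x | idx (itin φ N x) m 0 ≤ 1 ∧
        (0 : ℤ) - (prv (itin φ N x) (m + 1) 0 : ℤ) - 1 ∈ Alive (itin φ N x) (m + 1)} := by
      have e : {x | idx (itin φ N x) m 0 ≤ 1 ∧
          (0 : ℤ) - (prv (itin φ N x) (m + 1) 0 : ℤ) - 1 ∈ Alive (itin φ N x) (m + 1)} =
          ⋃ p ∈ Finset.range (B (m + 1) + 1), ({x | prv (itin φ N x) (m + 1) 0 = p} ∩
            (({x | idx (itin φ N x) m 0 = 0} ∪ {x | idx (itin φ N x) m 0 = 1}) ∩
              {x | (0 : ℤ) - (p : ℤ) - 1 ∈ Alive (itin φ N x) (m + 1)})) := by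
        ext x
        simp only [mem_iUnion, mem_inter_iff, mem_union, mem_setOf_eq, Finset.mem_range,
          exists_prop]
        constructor
        · rintro ⟨h1, h2⟩
          have h3 := (hBas x).prv_le (m + 1) 0
          exact ⟨_, by omega, rfl, by omega, h2⟩
        · rintro ⟨p, -, rfl, h1, h2⟩
          exact ⟨by omega, h2⟩
      rw [e]
      apply isClosed_biUnion_finset
      intro p _
      exact (hloc (m + 1) p).1.isClosed.inter
        (((hloc m 0).2.2.isClosed.union (hloc m 1).2.2.isClosed).inter (hA _ _))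
    have h4 : IsClosed {x | 3 ≤ idx (itin φ N x) m 0 ∧
        (0 : ℤ) + (nxt (itin φ N x) (m + 1) 0 : ℤ) ∈ Alive (itin φ N x) (m + 1)} := by
      have e : {x | 3 ≤ idx (itin φ N x) m 0 ∧
          (0 : ℤ) + (nxt (itin φ N x) (m + 1) 0 : ℤ) ∈ Alive (itin φ N x) (m + 1)} =
          ⋃ p ∈ Finset.range (B (m + 1) + 1), ({x | nxt (itin φ N x) (m + 1) 0 = p} ∩
            ((({x | idx (itin φ N x) m 0 = 0} ∪ {x | idx (itin φ N x) m 0 = 1}) ∪
              {x | idx (itin φ N x) m 0 = 2})ᶜ ∩
              {x | (0 : ℤ) + (p : ℤ) ∈ Alive (itin φ N x) (m + 1)})) := by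
        ext x
        simp only [mem_iUnion, mem_inter_iff, mem_union, mem_compl_iff, mem_setOf_eq,
          Finset.mem_range, exists_prop]
        constructor
        · rintro ⟨h1, h2⟩
          have h3 := (hBas x).nxt_le (m + 1) 0
          exact ⟨_, by omega, rfl, by omega, h2⟩
        · rintro ⟨p, -, rfl, h1, h2⟩
          exact ⟨by omega, h2⟩
      rw [e]
      apply isClosed_biUnion_finset
      intro p _
      exact (hloc (m + 1) p).2.1.isClosed.inter
        ((((hloc m 0).2.2.union (hloc m 1).2.2).union (hloc m 2).2.2).compl.isClosed.inter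
          (hA _ _))
    exact (((hC m).isClosed.union (hA (m + 1) 0)).union h3).union h4

end Pool.Agent.R944.TO.Closed
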