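import Pool.Agent.R944.TO.Stm

set_option autoImplicit false

open Set TopologicalSpace

universe u

namespace Pool.Agent.R944.TO.Edist

theorem of_walk {X : Type u} [AddAction (Fin 1 → ℤ) X] {a b : X} (p : (schreier 1 X).Walk a b) :
    ∃ j : ℤ, |j| ≤ (p.length : ℤ) ∧ b = (fun _ : Fin 1 => j) +ᵥ a := by
  induction p with
  | nil =>
    refine ⟨0, by simp, ?_⟩
    have e : (fun _ : Fin 1 => (0 : ℤ)) = 0 := rfl
    rw [e, zero_vadd]
  | @cons u v w h p ih =>
    obtain ⟨j, hj, hw⟩ := ih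
    obtain ⟨_, γ, hγ, hv⟩ := h
    have e : γ = fun _ : Fin 1 => γ 0 := by
      funext i
      rw [Subsingleton.elim i 0]
    refine ⟨j + γ 0, ?_, ?_⟩
    · rw [SimpleGraph.Walk.length_cons]
      push_cast
      exact (abs_add_le _ _).trans (add_le_add hj (hγ 0))
    · rw [hw, hv, e, vadd_vadd]
      rfl

theorem edist_step {X : Type u} [AddAction (Fin 1 → ℤ) X] (b : X) (e : ℤ) (he : |e| ≤ 1) :
    (schreier 1 X).edist b ((fun _ : Fin 1 => e) +ᵥ b) ≤ 1 := by
  by_cases h : b = (fun _ : Fin 1 => e) +ᵥ b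
  · rw [← h, SimpleGraph.edist_self]
    exact zero_le_one
  · refine le_of_eq (SimpleGraph.edist_eq_one_iff_adj.mpr ?_)
    exact ⟨h, fun _ => e, fun _ => he, rfl⟩

theorem edist_mul {X : Type u} [AddAction (Fin 1 → ℤ) X] (a : X) (e : ℤ) (he : |e| ≤ 1) (n : ℕ) :
    (schreier 1 X).edist a ((fun _ : Fin 1 => e * n) +ᵥ a) ≤ (n : ℕ∞) := by
  induction n with
  | zero =>
    have e1 : (fun _ : Fin 1 => e * ((0 : ℕ) : ℤ)) = 0 := by funext i; simp
    rw [e1, zero_vadd, SimpleGraph.edist_self]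
    simp
  | succ n ih =>
    have e1 : (fun _ : Fin 1 => e * ((n + 1 : ℕ) : ℤ)) =
        (fun _ : Fin 1 => e) + (fun _ : Fin 1 => e * (n : ℤ)) := by
      funext i
      simp only [Pi.add_apply]
      push_cast; ring
    rw [e1, ← vadd_vadd]
    refine (SimpleGraph.edist_triangle (v := (fun _ : Fin 1 => e * (n : ℤ)) +ᵥ a)).trans ?_
    push_cast
    exact add_le_add ih (edist_step _ e he)

theorem main : S_EDIST.{u} := by
  intro X _ a b k
  constructor
  · intro h
    have hne : (schreier 1 X).edist a b ≠ ⊤ := ne_top_of_le_ne_top (ENat.natCast_ne_top k) h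
    obtain ⟨p, hp⟩ := SimpleGraph.exists_walk_of_edist_ne_top hne
    obtain ⟨j, hj, hb⟩ := of_walk p
    refine ⟨j, ?_, hb⟩
    rw [← hp] at h
    have h' : p.length ≤ k := by exact_mod_cast h
    have : (p.length : ℤ) ≤ k := by exact_mod_cast h'
    linarith
  · rintro ⟨j, hj, rfl⟩
    rcases le_total 0 j with h0 | h0
    · obtain ⟨n, rfl⟩ := Int.eq_ofNat_of_zero_le h0
      have h1 := edist_mul a 1 (by simp) n
      rw [one_mul] at h1
      refine h1.trans ?_
      rw [abs_of_nonneg h0] at hj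
      exact_mod_cast hj
    · obtain ⟨n, hn⟩ := Int.eq_ofNat_of_zero_le (by omega : 0 ≤ -j)
      have h1 := edist_mul a (-1) (by simp) n
      have e1 : (-1 : ℤ) * (n : ℤ) = j := by omega
      rw [e1] at h1
      refine h1.trans ?_
      rw [abs_of_nonpos h0] at hj
      have : (n : ℤ) ≤ k := by omega
      exact_mod_cast this

end Pool.Agent.R944.TO.Edist
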