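import Pool.Agent.R944.TO.Stm

/-!
# TO-Exh: every ball lies in a layer
-/

open Set

namespace Pool.Agent.R944.TO.Exh

open Pool.Agent.R944.TO

theorem main : S_EXH := by
  intro L B M hL _ hB k N
  by_cases hk : ∃ m, k ∈ Alive M m
  · obtain ⟨m, hm⟩ := hk
    set p : ℕ := max m N with hp
    have hpm : m ≤ p := le_max_left _ _
    have hpN : N ≤ p := le_max_right _ _
    have hkA : k ∈ Alive M (p + 1) := fun j hj => hm j (by omega)
    set z : ℤ := k - (prv M (p + 1) k : ℤ) with hz
    set z' : ℤ := k + (nxt M (p + 1) k : ℤ) with hz'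
    have hzM : z ∈ M (p + 1) := hB.prv_mem (p + 1) k
    have hz'M : z' ∈ M (p + 1) := hB.nxt_mem (p + 1) k
    have hzk : z ≤ k := by omega
    have hkz' : k < z' := by have := hB.nxt_pos (p + 1) k; omega
    have hno : ∀ d : ℤ, z < d → d < z' → d ∉ M (p + 1) := by
      intro d h1 h2
      by_cases h3 : d ≤ k
      · exact hB.prv_min (p + 1) k d h1 h3
      · exact hB.nxt_min (p + 1) k d (by omega) h2
    have hzA : z ∈ Alive M (p + 1) :=
      (hB.alive_same (p + 1) z k hzk (fun c h1 h2 => hno c h1 (by omega))).1 hkA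
    have hA : ∀ c : ℤ, z ≤ c → c < z' → c ∈ Alive M (p + 1) := fun c h1 h2 =>
      (hB.alive_same (p + 1) z c h1 (fun d h3 h4 => hno d h3 (by omega))).2 hzA
    have hnest : M (p + 1) ⊆ M p := hB.nest_le p (p + 1) (by omega)
    refine ⟨p + 1, fun i hi => ?_⟩
    rw [abs_le] at hi
    have hNp : (N : ℤ) ≤ p := by exact_mod_cast hpN
    rcases lt_or_ge (k + i) z with hc | hc
    · -- left of the cell
      right
      have hno2 : ∀ d : ℤ, k + i < d → d ≤ z - 1 → d ∉ M p := by
        intro d h1 h2 h3
        have := hB.len p d z h3 (hnest hzM) (by omega)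
        omega
      have h1 := hB.idx_same p (k + i) (z - 1) (by omega) hno2
      have h2 : 4 ≤ idx M p (z - 1) := hB.idx_last p (z - 1) (by rwa [sub_add_cancel])
      have h3 := hB.nxt_eq (p + 1) (k + i) z hc hzM
        (fun c h4 h5 h6 => hno2 c h4 (by omega) (hnest h6))
      exact ⟨by omega, by rw [h3]; exact hzA⟩
    · rcases lt_or_ge (k + i) z' with hc' | hc'
      · left; left; right
        exact hA _ hc hc'
      · -- right of the cell
        left; right
        have hno2 : ∀ d : ℤ, z' < d → d ≤ k + i → d ∉ M p := by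
          intro d h1 h2 h3
          have := hB.len p z' d (hnest hz'M) h3 h1
          omega
        have h1 := hB.idx_same p z' (k + i) hc' hno2
        have h2 : idx M p z' = 0 := hB.idx_zero p z' hz'M
        have h3 := hB.prv_eq (p + 1) (k + i) z' hc' hz'M
          (fun c h4 h5 h6 => hno2 c h4 h5 (hnest h6))
        exact ⟨by omega, by rw [h3]; exact hA _ (by omega) (by omega)⟩
  · push Not at hk
    have hC : ∀ m, ∃ j, m ≤ j ∧ k ∈ C M j := by
      intro m
      have := hk m
      simp only [Alive, mem_ofPred_eq, not_forall, not_not, exists_prop] at this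
      exact this
    obtain ⟨j', hj'N, hj'⟩ := hC N
    obtain ⟨j, hjj', hj⟩ := hC (j' + 1)
    have hidx : idx M j' k = 1 ∨ idx M j' k = 3 := hj'
    set w : ℤ := k - (prv M j' k : ℤ) with hw
    set z : ℤ := k - (prv M (j' + 1) k : ℤ) with hz
    set w' : ℤ := k + (nxt M j' k : ℤ) with hw'
    set z' : ℤ := k + (nxt M (j' + 1) k : ℤ) with hz'
    have hwM : w ∈ M j' := hB.prv_mem _ _
    have hzM : z ∈ M (j' + 1) := hB.prv_mem _ _
    have hw'M : w' ∈ M j' := hB.nxt_mem _ _
    have hz'M : z' ∈ M (j' + 1) := hB.nxt_mem _ _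
    have hnest : M (j' + 1) ⊆ M j' := hB.nest_le j' (j' + 1) (by omega)
    have hnest2 : M j ⊆ M (j' + 1) := hB.nest_le _ _ hjj'
    have hkw' : k < w' := by have := hB.nxt_pos j' k; omega
    have hkz' : k < z' := by have := hB.nxt_pos (j' + 1) k; omega
    have hNj : (N : ℤ) ≤ j' := by exact_mod_cast hj'N
    have hL' : (1 : ℤ) ≤ L := by exact_mod_cast hL
    -- left
    have hzw : z ≤ w := by
      by_contra hcon
      exact hB.prv_min j' k z (by omega) (by omega) (hnest hzM)
    have hne : z ≠ w := by
      intro h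
      have h1 := hB.idx_same j' w k (by omega) (fun c h1 h2 => hB.prv_min j' k c h1 h2)
      have h2 := hB.idx_zero j' w (h ▸ hzM)
      omega
    have hlen := hB.len j' z w (hnest hzM) hwM (by omega)
    -- right
    have hw'n : w' ∉ M (j' + 1) := by
      intro h
      have h1 : 4 ≤ idx M j' (w' - 1) := hB.idx_last j' (w' - 1) (by rwa [sub_add_cancel])
      have h2 := hB.idx_same j' k (w' - 1) (by omega)
        (fun c h3 h4 => hB.nxt_min j' k c h3 (by omega))
      omega
    have hwz' : w' ≤ z' := by
      by_contra hcon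
      exact hB.nxt_min j' k z' hkz' (by omega) (hnest hz'M)
    have hne' : w' ≠ z' := fun h => hw'n (h ▸ hz'M)
    have hlen' := hB.len j' w' z' hw'M (hnest hz'M) (by omega)
    have hno : ∀ d : ℤ, z < d → d < z' → d ∉ M j := by
      intro d h1 h2 h3
      by_cases h4 : d ≤ k
      · exact hB.prv_min (j' + 1) k d h1 h4 (hnest2 h3)
      · exact hB.nxt_min (j' + 1) k d (by omega) h2 (hnest2 h3)
    refine ⟨j + 1, fun i hi => ?_⟩
    rw [abs_le] at hi
    left; left; left
    have hid : idx M j (k + i) = idx M j k := by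
      rcases le_total 0 i with h | h
      · exact hB.idx_same j k (k + i) (by omega) (fun c h1 h2 => hno c (by omega) (by omega))
      · exact (hB.idx_same j (k + i) k (by omega)
          (fun c h1 h2 => hno c (by omega) (by omega))).symm
    have hj2 : idx M j k = 1 ∨ idx M j k = 3 := hj
    show idx M j (k + i) = 1 ∨ idx M j (k + i) = 3
    rw [hid]
    exact hj2

end Pool.Agent.R944.TO.Exh
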