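import Pool.Agent.R944.TO.Stm

/-! TO-FarL: left boundaries of a layer are far from earlier layers. -/

set_option autoImplicit false

open Set TopologicalSpace

namespace Pool.Agent.R944.TO.FarL

open Pool.Agent.R944.TO

theorem alive_mono {M : ℕ → Set ℤ} {i j : ℕ} (h : i ≤ j) : Alive M i ⊆ Alive M j :=
  fun _ hk l hl => hk l (h.trans hl)

theorem lay_succ {M : ℕ → Set ℤ} {m : ℕ} {k : ℤ} : k ∈ Lay M (m + 1) ↔
    k ∈ C M m ∨ k ∈ Alive M (m + 1) ∨
    (idx M m k ≤ 1 ∧ k - (prv M (m + 1) k : ℤ) - 1 ∈ Alive M (m + 1)) ∨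
    (3 ≤ idx M m k ∧ k + (nxt M (m + 1) k : ℤ) ∈ Alive M (m + 1)) := by
  simp only [Lay, Set.mem_union, Set.mem_ofPred_eq]
  tauto

theorem step1 {L : ℕ} {B : ℕ → ℕ} {M : ℕ → Set ℤ} (hB : Bas L B M) (m : ℕ) (b : ℤ)
    (hb : b ∈ Lay M (m + 1)) (hb' : b - 1 ∉ Lay M (m + 1)) :
    b ∈ C M m ∧ b ∈ M m ∧ b ∉ M (m + 1) ∧ b - 1 ∉ Alive M (m + 1) := by
  rw [lay_succ] at hb'
  push Not at hb'
  obtain ⟨n1, n2, n3, n4⟩ := hb'
  have hone : ∀ c : ℤ, b - 1 < c → c ≤ b → c = b := fun c h1 h2 => by omega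
  have hb1 : b - 1 + 1 = b := by ring
  have hsame : b ∉ M m → idx M m b = idx M m (b - 1) := fun h =>
    hB.idx_same m (b - 1) b (by omega) (fun c h1 h2 => by rw [hone c h1 h2]; exact h)
  have hle : b ∉ M (m + 1) → idx M m b ≤ idx M m (b - 1) + 1 ∧ idx M m (b - 1) ≤ idx M m b := by
    intro h
    by_cases hbm : b ∈ M m
    · have := hB.idx_succ m (b - 1) (by rw [hb1]; exact hbm) (by rw [hb1]; exact h)
      rw [hb1] at this
      omega
    · have := hsame hbm
      omega
  have halive : b ∉ M (m + 1) → (b ∈ Alive M (m + 1) ↔ b - 1 ∈ Alive M (m + 1)) := fun h =>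
    hB.alive_same (m + 1) (b - 1) b (by omega) (fun c h1 h2 => by rw [hone c h1 h2]; exact h)
  have caseC : b ∈ C M m → b ∈ C M m ∧ b ∈ M m ∧ b ∉ M (m + 1) ∧ b - 1 ∉ Alive M (m + 1) := by
    intro hC
    refine ⟨hC, ?_, ?_, n2⟩
    · by_contra h
      have := hsame h
      apply n1
      show idx M m (b - 1) = 1 ∨ idx M m (b - 1) = 3
      rw [← this]; exact hC
    · intro h
      have := hB.idx_zero m b h
      rcases hC with h1 | h1 <;> omega
  rw [lay_succ] at hb
  rcases hb with h | h | ⟨h1, h2⟩ | ⟨h1, h2⟩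
  · exact caseC h
  · exfalso
    by_cases hM : b ∈ M (m + 1)
    · have e1 := hB.idx_last m (b - 1) (by rw [hb1]; exact hM)
      have e2 := hB.nxt_eq (m + 1) (b - 1) b (by omega) hM (fun c h1 h2 => by omega)
      exact n4 (by omega) (by rw [e2]; exact h)
    · exact n2 ((halive hM).1 h)
  · exfalso
    by_cases hM : b ∈ M (m + 1)
    · have e1 := hB.prv_eq (m + 1) b b le_rfl hM (fun c h1 h2 => by omega)
      rw [e1] at h2
      exact n2 h2
    · set a : ℤ := b - (prv M (m + 1) b : ℤ) with ha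
      have haM : a ∈ M (m + 1) := hB.prv_mem (m + 1) b
      have hab : a ≠ b := fun e => hM (e ▸ haM)
      have hab' : a ≤ b - 1 := by
        have : a ≤ b := by rw [ha]; omega
        omega
      have e1 := hB.prv_eq (m + 1) (b - 1) a hab' haM
        (fun c h1 h2 => hB.prv_min (m + 1) b c (by rw [← ha]; exact h1) (by omega))
      refine n3 (by have := hle hM; omega) ?_
      rw [e1]; exact h2
  · by_cases hC : b ∈ C M m
    · exact caseC hC
    · exfalso
      have h4 : 4 ≤ idx M m b := by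
        have : idx M m b ≠ 3 := fun e => hC (Or.inr e)
        omega
      have hM : b ∉ M (m + 1) := fun h => by
        have := hB.idx_zero m b h
        omega
      have e1 := hB.nxt_eq (m + 1) (b - 1) (b + (nxt M (m + 1) b : ℤ)) (by omega)
        (hB.nxt_mem (m + 1) b) (fun c h1 h2 => by
          by_cases hc : c = b
          · rw [hc]; exact hM
          · exact hB.nxt_min (m + 1) b c (by omega) h2)
      refine n4 (by have := hle hM; omega) ?_
      rw [e1]; exact h2

theorem main : S_FARL := by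
  intro L B M q hL hq hT hB n m hnm a ha b hb hb'
  obtain ⟨m, rfl⟩ : ∃ m', m = m' + 1 := ⟨m - 1, by omega⟩
  obtain ⟨bC, bM, bM', bA⟩ := step1 hB m b hb hb'
  by_contra hcon
  push Not at hcon
  have hlt := abs_lt.1 hcon
  have hqL : (q : ℤ) ≤ L := by exact_mod_cast hq
  have bMi : ∀ i, i ≤ m → b ∈ M i := fun i hi => hB.nest_le i m hi bM
  have bAi : ∀ i, i ≤ m + 1 → b - 1 ∉ Alive M i := fun i hi h => bA (alive_mono hi h)
  have bAi' : ∀ i, i ≤ m → b ∉ Alive M i := fun i hi h => h m hi bC
  rcases le_or_gt b a with hab | hab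
  · -- a ≥ b
    have hno : ∀ i (c : ℤ), b < c → c ≤ a → c ∉ M i := by
      intro i c h1 h2 hc
      have := hT.gap b (bMi 0 (Nat.zero_le _)) c (hB.nest_le 0 i (Nat.zero_le _) hc) h1
      omega
    have hidx : ∀ i, idx M i a = idx M i b := fun i => hB.idx_same i b a hab (hno i)
    have hz : ∀ i, i < m → idx M i a = 0 := fun i hi => by
      rw [hidx i]; exact hB.idx_zero i b (bMi (i + 1) hi)
    have haC : a ∈ C M m := by
      show idx M m a = 1 ∨ idx M m a = 3
      rw [hidx m]; exact bC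
    have haA : ∀ i, i ≤ m → a ∉ Alive M i := fun i hi h => h m hi haC
    rcases n with _ | i
    · exact haA 0 (Nat.zero_le _) ha
    · have hi : i < m := by omega
      have hzi := hz i hi
      rw [lay_succ] at ha
      rcases ha with h | h | ⟨h1, h2⟩ | ⟨h1, h2⟩
      · rcases h with h | h <;> omega
      · exact haA (i + 1) hi h
      · have e1 := hB.prv_eq (i + 1) a b hab (bMi (i + 1) hi) (hno (i + 1))
        rw [e1] at h2
        exact bAi (i + 1) (by omega) h2
      · omega
  · -- a < b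
    have hno : ∀ i (c : ℤ), a < c → c < b → c ∉ M i := by
      intro i c h1 h2 hc
      have := hT.gap c (hB.nest_le 0 i (Nat.zero_le _) hc) b (bMi 0 (Nat.zero_le _)) h2
      omega
    have hb1 : b - 1 + 1 = b := by ring
    have hidx : ∀ i, i < m → 4 ≤ idx M i a := fun i hi => by
      rw [← hB.idx_same i a (b - 1) (by omega) (fun c h1 h2 => hno i c h1 (by omega))]
      exact hB.idx_last i (b - 1) (by rw [hb1]; exact bMi (i + 1) hi)
    have haA : ∀ i, i ≤ m + 1 → a ∉ Alive M i := by
      intro i hi h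
      have h1 := alive_mono hi h
      exact bA ((hB.alive_same (m + 1) a (b - 1) (by omega)
        (fun c h1 h2 => hno (m + 1) c h1 (by omega))).2 h1)
    rcases n with _ | i
    · exact haA 0 (Nat.zero_le _) ha
    · have hi : i < m := by omega
      have h4 := hidx i hi
      rw [lay_succ] at ha
      rcases ha with h | h | ⟨h1, h2⟩ | ⟨h1, h2⟩
      · rcases h with h | h <;> omega
      · exact haA (i + 1) (by omega) h
      · omega
      · have e1 := hB.nxt_eq (i + 1) a b hab (bMi (i + 1) hi) (hno (i + 1))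
        rw [e1] at h2
        exact bAi' (i + 1) hi h2

end Pool.Agent.R944.TO.FarL
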