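import Pool.Agent.R944.TO.Stm

/-! The right boundaries of a layer are far from all earlier layers. -/

set_option autoImplicit false

namespace Pool.Agent.R944.TO.FarR

open Pool.Agent.R944.TO

variable {L : ℕ} {B : ℕ → ℕ} {M : ℕ → Set ℤ}

theorem mem_lay_succ (M : ℕ → Set ℤ) (m : ℕ) (k : ℤ) : k ∈ Lay M (m + 1) ↔
    k ∈ C M m ∨ k ∈ Alive M (m + 1) ∨
      (idx M m k ≤ 1 ∧ k - (prv M (m + 1) k : ℤ) - 1 ∈ Alive M (m + 1)) ∨
      (3 ≤ idx M m k ∧ k + (nxt M (m + 1) k : ℤ) ∈ Alive M (m + 1)) := by
  unfold Lay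
  simp only [Set.mem_union, Set.mem_ofPred_eq, or_assoc]

theorem mem_C (M : ℕ → Set ℤ) (j : ℕ) (k : ℤ) : k ∈ C M j ↔ idx M j k = 1 ∨ idx M j k = 3 :=
  Iff.rfl

theorem alive_mono (M : ℕ → Set ℤ) {i j : ℕ} (h : i ≤ j) {k : ℤ} (hk : k ∈ Alive M i) :
    k ∈ Alive M j := fun l hl => hk l (h.trans hl)

/-- the structure of a right boundary point -/
theorem step1 (hB : Bas L B M) (m : ℕ) (b : ℤ) (hb : b ∈ Lay M (m + 1))
    (hb1 : b + 1 ∉ Lay M (m + 1)) : b ∈ C M m ∧ b + 1 ∈ M m ∧ b + 1 ∉ Alive M (m + 1) := by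
  rw [mem_lay_succ] at hb hb1
  push Not at hb1
  obtain ⟨n1, n2, n3, n4⟩ := hb1
  have hsame : ∀ j, b + 1 ∉ M j → idx M j (b + 1) = idx M j b := by
    intro j hj
    refine hB.idx_same j b (b + 1) (by omega) fun c h1 h2 => ?_
    have : c = b + 1 := by omega
    rwa [this]
  by_cases hC : b ∈ C M m
  · refine ⟨hC, ?_, n2⟩
    by_contra hcon
    apply n1
    rw [mem_C] at hC ⊢
    rwa [hsame m hcon]
  · exfalso
    rcases hb with h | h | ⟨h1, h2⟩ | ⟨h1, h2⟩
    · exact hC h
    · -- alive
      by_cases hM : b + 1 ∈ M (m + 1)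
      · have h0 := hB.idx_zero m (b + 1) hM
        have hp := hB.prv_eq (m + 1) (b + 1) (b + 1) le_rfl hM (fun c h3 h4 => by omega)
        refine n3 (by omega) ?_
        rw [hp]
        have : b + 1 - 1 = b := by omega
        rwa [this]
      · apply n2
        refine (hB.alive_same (m + 1) b (b + 1) (by omega) fun c h3 h4 => ?_).2 h
        have : c = b + 1 := by omega
        rwa [this]
    · have hM : b + 1 ∉ M (m + 1) := by
        intro hM
        have := hB.idx_last m b hM
        omega
      have hp := hB.prv_eq (m + 1) (b + 1) (b - (prv M (m + 1) b : ℤ)) (by omega)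
        (hB.prv_mem (m + 1) b) (fun c h3 h4 => by
          rcases eq_or_lt_of_le h4 with h5 | h5
          · rwa [h5]
          · exact hB.prv_min (m + 1) b c h3 (by omega))
      rw [hp] at n3
      by_cases hi : idx M m (b + 1) ≤ 1
      · exact n3 hi h2
      · by_cases hMm : b + 1 ∈ M m
        · have h6 := hB.idx_succ m b hMm hM
          apply hC
          rw [mem_C]
          left
          omega
        · have := hsame m hMm
          omega
    · by_cases hM : b + 1 ∈ M (m + 1)
      · have hn := hB.nxt_eq (m + 1) b (b + 1) (by omega) hM (fun c h3 h4 => by omega)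
        rw [hn] at h2
        exact n2 h2
      · have hpos := hB.nxt_pos (m + 1) b
        have hmem := hB.nxt_mem (m + 1) b
        have hne : nxt M (m + 1) b ≠ 1 := by
          intro h5
          rw [h5] at hmem
          exact hM (by simpa using hmem)
        have hn := hB.nxt_eq (m + 1) (b + 1) (b + (nxt M (m + 1) b : ℤ)) (by omega) hmem
          (fun c h3 h4 => hB.nxt_min (m + 1) b c (by omega) h4)
        refine n4 ?_ (by rw [hn]; exact h2)
        by_cases hMm : b + 1 ∈ M m
        · have h6 := hB.idx_succ m b hMm hM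
          omega
        · have := hsame m hMm
          omega

theorem main : S_FARR := by
  intro L B M q hL hq hT hB n m hnm a ha b hb hb1
  obtain ⟨m, rfl⟩ : ∃ m', m = m' + 1 := ⟨m - 1, by omega⟩
  obtain ⟨hC, hMb, hAb⟩ := step1 hB m b hb hb1
  by_contra hlt
  push Not at hlt
  rw [abs_lt] at hlt
  have hAb' : ∀ i, i ≤ m + 1 → b + 1 ∉ Alive M i := fun i hi h => hAb (alive_mono M hi h)
  have hAc : ∀ i, i ≤ m → b ∉ Alive M i := fun i hi h => h m hi hC
  have hMb0 : b + 1 ∈ M 0 := hB.nest_le 0 m (Nat.zero_le m) hMb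
  rcases le_or_gt a b with hab | hab
  · -- `a` is to the left
    have hno : ∀ i, ∀ c, a < c → c ≤ b → c ∉ M i := by
      intro i c h1 h2 h3
      have h4 := hT.gap c (hB.nest_le 0 i (Nat.zero_le i) h3) (b + 1) hMb0 (by omega)
      omega
    have hal : ∀ i, i ≤ m → a ∉ Alive M i := fun i hi h =>
      hAc i hi ((hB.alive_same i a b hab (hno i)).2 h)
    cases n with
    | zero => exact hal 0 (Nat.zero_le m) ha
    | succ i =>
      have hidx : 4 ≤ idx M i a := by
        rw [← hB.idx_same i a b hab (hno i)]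
        exact hB.idx_last i b (hB.nest_le (i + 1) m (by omega) hMb)
      rw [mem_lay_succ] at ha
      rcases ha with h | h | ⟨h1, h2⟩ | ⟨h1, h2⟩
      · rw [mem_C] at h
        omega
      · exact hal (i + 1) (by omega) h
      · omega
      · have hn := hB.nxt_eq (i + 1) a (b + 1) (by omega)
          (hB.nest_le (i + 1) m (by omega) hMb) (fun c h3 h4 => hno (i + 1) c h3 (by omega))
        rw [hn] at h2
        exact hAb' (i + 1) (by omega) h2
  · -- `a` is to the right
    have hno : ∀ i, ∀ c, b + 1 < c → c ≤ a → c ∉ M i := by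
      intro i c h1 h2 h3
      have h4 := hT.gap (b + 1) hMb0 c (hB.nest_le 0 i (Nat.zero_le i) h3) (by omega)
      omega
    have hal : ∀ i, i ≤ m → a ∉ Alive M i := fun i hi h =>
      hAb' i (by omega) ((hB.alive_same i (b + 1) a (by omega) (hno i)).1 h)
    cases n with
    | zero => exact hal 0 (Nat.zero_le m) ha
    | succ i =>
      have hMi : b + 1 ∈ M (i + 1) := hB.nest_le (i + 1) m (by omega) hMb
      have hidx : idx M i a = 0 := by
        rw [hB.idx_same i (b + 1) a (by omega) (hno i)]
        exact hB.idx_zero i (b + 1) hMi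
      rw [mem_lay_succ] at ha
      rcases ha with h | h | ⟨h1, h2⟩ | ⟨h1, h2⟩
      · rw [mem_C] at h
        omega
      · exact hal (i + 1) (by omega) h
      · have hp := hB.prv_eq (i + 1) a (b + 1) (by omega) hMi (hno (i + 1))
        rw [hp] at h2
        refine hAc (i + 1) (by omega) ?_
        have : b + 1 - 1 = b := by omega
        rwa [this] at h2
      · omega

end Pool.Agent.R944.TO.FarR
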