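import Pool.Agent.R944.TO.Stm

namespace Pool.Agent.R944.TO.Gap

variable {L : ℕ} {B : ℕ → ℕ} {M : ℕ → Set ℤ}

/-- Passing to the next point of `M j` when the index is at most three. -/
theorem step (hB : Bas L B M) (j : ℕ) (w : ℤ) (hw : idx M j w ≤ 3) :
    w + (nxt M j w : ℤ) ∉ M (j + 1) ∧ idx M j (w + (nxt M j w : ℤ)) = idx M j w + 1 := by
  have h1 := hB.nxt_pos j w
  have h2 : idx M j (w + (nxt M j w : ℤ) - 1) = idx M j w :=
    hB.idx_same j w _ (by omega) (fun c hc hc' => hB.nxt_min j w c hc (by omega))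
  have h3 : w + (nxt M j w : ℤ) ∉ M (j + 1) := by
    intro h
    have := hB.idx_last j (w + (nxt M j w : ℤ) - 1) (by simpa using h)
    omega
  refine ⟨h3, ?_⟩
  have h4 := hB.idx_succ j (w + (nxt M j w : ℤ) - 1) (by simpa using hB.nxt_mem j w)
    (by simpa using h3)
  rw [h2] at h4
  simpa using h4

/-- No further points shortly after a point. -/
theorem noPt (hT : Tower L B M) (hB : Bas L B M) {q : ℕ} (hq : q ≤ L) (j : ℕ) (g i c : ℤ)
    (hg : g ∈ M 0) (hi : i < q) (hc : g < c) (hc' : c ≤ g + i) : c ∉ M j := by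
  intro h
  have := hT.gap g hg c (hB.nest_le 0 j (Nat.zero_le _) h) hc
  omega

/-- Long gaps to the right. -/
theorem right (L : ℕ) (B : ℕ → ℕ) (q n : ℕ) (hq : q ≤ L) :
    ∃ D : ℕ, ∀ M : ℕ → Set ℤ, Tower L B M → Bas L B M → ∀ k : ℤ,
      ∃ g : ℤ, k ≤ g ∧ g + q ≤ k + D ∧ ∀ i : ℤ, 0 ≤ i → i < q → g + i ∉ Lay M n := by
  rcases n with _ | m
  · refine ⟨B 1 + B 0 + q, fun M hT hB k => ?_⟩
    obtain ⟨i0, hi0, hi0', hz⟩ := hT.fwd 1 k
    have hs := step hB 0 (k + (i0 : ℤ)) (by rw [hB.idx_zero 0 _ hz]; omega)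
    rw [hB.idx_zero 0 _ hz] at hs
    have hl := hB.nxt_le 0 (k + (i0 : ℤ))
    have hm := hB.nxt_mem 0 (k + (i0 : ℤ))
    refine ⟨k + (i0 : ℤ) + (nxt M 0 (k + (i0 : ℤ)) : ℤ), by omega, by push_cast; omega, ?_⟩
    intro i hi hiq h
    have h1 := hB.idx_same 0 (k + (i0 : ℤ) + (nxt M 0 (k + (i0 : ℤ)) : ℤ))
      (k + (i0 : ℤ) + (nxt M 0 (k + (i0 : ℤ)) : ℤ) + i) (by omega)
      (fun c hc hc' => noPt hT hB hq 0 _ i c hm hiq hc hc')
    rw [hs.2] at h1
    exact h 0 le_rfl (Or.inl (by rw [h1]))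
  · refine ⟨B (m + 2) + B (m + 1) + 2 * B m + q, fun M hT hB k => ?_⟩
    obtain ⟨i0, hi0, hi0', hz⟩ := hT.fwd (m + 2) k
    obtain ⟨z, hzdef⟩ : ∃ z : ℤ, z = k + (i0 : ℤ) := ⟨_, rfl⟩
    rw [← hzdef] at hz
    have hs := step hB (m + 1) z (by rw [hB.idx_zero (m + 1) _ hz]; omega)
    rw [hB.idx_zero (m + 1) _ hz] at hs
    have hl := hB.nxt_le (m + 1) z
    have hm := hB.nxt_mem (m + 1) z
    obtain ⟨z', hz'def⟩ : ∃ z' : ℤ, z' = z + (nxt M (m + 1) z : ℤ) := ⟨_, rfl⟩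
    rw [← hz'def] at hs hm
    -- the first point of `M m` after `z'`
    have hs1 := step hB m z' (by rw [hB.idx_zero m _ hm]; omega)
    rw [hB.idx_zero m _ hm] at hs1
    have hl1 := hB.nxt_le m z'
    have hp1 := hB.nxt_pos m z'
    have hm1 := hB.nxt_mem m z'
    have hn1 := hB.nxt_min m z'
    obtain ⟨w, hwdef⟩ : ∃ w : ℤ, w = z' + (nxt M m z' : ℤ) := ⟨_, rfl⟩
    rw [← hwdef] at hs1 hm1 hn1
    -- the second one
    have hs2 := step hB m w (by rw [hs1.2]; omega)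
    rw [hs1.2] at hs2
    have hl2 := hB.nxt_le m w
    have hp2 := hB.nxt_pos m w
    have hm2 := hB.nxt_mem m w
    have hn2 := hB.nxt_min m w
    obtain ⟨g, hgdef⟩ : ∃ g : ℤ, g = w + (nxt M m w : ℤ) := ⟨_, rfl⟩
    rw [← hgdef] at hs2 hm2 hn2
    have hg0 : g ∈ M 0 := hB.nest_le 0 m (Nat.zero_le _) hm2
    refine ⟨g, by omega, by push_cast; omega, ?_⟩
    intro i hi hiq h
    have h1 := hB.idx_same m g (g + i) (by omega)
      (fun c hc hc' => noPt hT hB hq m g i c hg0 hiq hc hc')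
    rw [hs2.2] at h1
    have h2 := hB.idx_same (m + 1) z' (g + i) (by omega) (by
      intro c hc hc' hcM
      have hcm : c ∈ M m := hT.nest m hcM
      rcases lt_trichotomy c w with h | h | h
      · exact hn1 c hc h hcm
      · exact hs1.1 (h ▸ hcM)
      · rcases lt_trichotomy c g with h' | h' | h'
        · exact hn2 c h h' hcm
        · exact hs2.1 (h' ▸ hcM)
        · exact noPt hT hB hq m g i c hg0 hiq h' hc' hcm)
    rw [hs.2] at h2
    have h3 : g + i ∉ Alive M (m + 1) := fun h => h (m + 1) le_rfl (Or.inl (by rw [h2]))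
    rcases h with ((h | h) | h) | h
    · rcases h with h | h <;> omega
    · exact h3 h
    · have := h.1; omega
    · have := h.1; omega

theorem main : S_GAP := by
  intro L B q n _ hq
  obtain ⟨D, hD⟩ := right L B q n hq
  refine ⟨D, fun M hT hB k => ⟨hD M hT hB k, ?_⟩⟩
  obtain ⟨g, h1, h2, h3⟩ := hD M hT hB (k - D)
  exact ⟨g, h1, by omega, h3⟩

end Pool.Agent.R944.TO.Gap
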