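import Pool.Agent.R944.TO.Stm

/-!
# Project TO, piece Idx (helper567)
-/

set_option autoImplicit false

namespace Pool.Agent.R944.TO.Idx

open Pool.Agent.R944.TO

open Classical in
theorem idx_step (L : ℕ) (B : ℕ → ℕ) (M : ℕ → Set ℤ) (hT : Tower L B M) (hP : Prv B M) (j : ℕ)
    (k : ℤ) (h : k + 1 ∉ M (j + 1)) :
    idx M j (k + 1) = idx M j k + (if k + 1 ∈ M j then 1 else 0) := by
  have hp : prv M (j + 1) (k + 1) = prv M (j + 1) k + 1 := by
    have := hP.prv_eq (j + 1) (k + 1) (k - (prv M (j + 1) k : ℤ)) (by omega) (hP.prv_mem _ _) (by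
      intro c h1 h2
      rcases eq_or_lt_of_le h2 with h3 | h3
      · rw [h3]
        exact h
      · exact hP.prv_min (j + 1) k c h1 (by omega))
    omega
  unfold idx
  rw [hp, Finset.card_filter, Finset.card_filter, Finset.sum_range_succ']
  congr 1
  · refine Finset.sum_congr rfl fun i _ => ?_
    have : k + 1 - ((i + 1 : ℕ) : ℤ) = k - (i : ℤ) := by push_cast; ring
    rw [this]
  · simp

theorem main : S_IDX := by
  intro L B M hT hP
  refine ⟨?_, ?_, ?_, ?_⟩
  · intro j k hk
    have h0 : prv M (j + 1) k = 0 := by
      have : prv M (j + 1) k ≤ 0 := Nat.sInf_le (by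
        change k - ((0 : ℕ) : ℤ) ∈ M (j + 1)
        simpa using hk)
      omega
    unfold idx
    rw [h0]
    simp
  · intro j k hk
    have hz := hP.prv_mem (j + 1) k
    obtain ⟨w1, h1, w2, h2, w3, h3, w4, h4, k1, k2, k3, k4, k5⟩ :=
      hT.four j _ hz _ hk (by omega)
    classical
    have hsub : ({(k - w1).toNat, (k - w2).toNat, (k - w3).toNat, (k - w4).toNat} : Finset ℕ) ⊆
        ((Finset.range (prv M (j + 1) k)).filter (fun i : ℕ => k - (i : ℤ) ∈ M j)) := by
      intro i hi
      rw [Finset.mem_filter, Finset.mem_range]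
      simp only [Finset.mem_insert, Finset.mem_singleton] at hi
      rcases hi with rfl | rfl | rfl | rfl
      · refine ⟨by omega, ?_⟩
        rw [Int.toNat_of_nonneg (by omega), sub_sub_cancel]
        exact h1
      · refine ⟨by omega, ?_⟩
        rw [Int.toNat_of_nonneg (by omega), sub_sub_cancel]
        exact h2
      · refine ⟨by omega, ?_⟩
        rw [Int.toNat_of_nonneg (by omega), sub_sub_cancel]
        exact h3
      · refine ⟨by omega, ?_⟩
        rw [Int.toNat_of_nonneg (by omega), sub_sub_cancel]
        exact h4
    have hcard : ({(k - w1).toNat, (k - w2).toNat, (k - w3).toNat, (k - w4).toNat} :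
        Finset ℕ).card = 4 := by
      rw [Finset.card_insert_of_notMem, Finset.card_insert_of_notMem,
        Finset.card_insert_of_notMem, Finset.card_singleton]
      · rw [Finset.mem_singleton]
        omega
      · simp only [Finset.mem_insert, Finset.mem_singleton]
        omega
      · simp only [Finset.mem_insert, Finset.mem_singleton]
        omega
    have h5 := Finset.card_le_card hsub
    rw [hcard] at h5
    unfold idx
    convert h5
  · intro j k h1 h2
    rw [idx_step L B M hT hP j k h2, if_pos h1]
  · intro j a b hab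
    induction b, hab using Int.le_induction with
    | base => intro _; rfl
    | succ b hb ih =>
      intro hno
      have h1 : b + 1 ∉ M j := hno (b + 1) (by omega) le_rfl
      rw [idx_step L B M hT hP j b (fun h => h1 (hT.nest j h)), if_neg h1, add_zero]
      exact ih fun c h2 h3 => hno c h2 (by omega)

end Pool.Agent.R944.TO.Idx
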