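import Pool.Agent.R944.TO.Stm

/-!
# Project TO, piece Len (helper567)
-/

set_option autoImplicit false

namespace Pool.Agent.R944.TO.Len

open Pool.Agent.R944.TO

theorem main : S_LEN := by
  intro L B M _ hT j
  induction j with
  | zero =>
    intro a b ha hb hab
    have := hT.gap a ha b hb hab
    simpa using this
  | succ j ih =>
    intro a b ha hb hab
    obtain ⟨w1, h1, w2, h2, w3, h3, w4, h4, k1, k2, k3, k4, k5⟩ := hT.four j a ha b hb hab
    have := ih a w1 (hT.nest j ha) h1 k1
    push_cast
    omega

end Pool.Agent.R944.TO.Len
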