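import Mathlib

open Set TopologicalSpace

universe u

namespace Pool.Agent.R944.TO

/-! ## The notions of the problem -/

/-- The Schreier graph of an action of `ℤ^d` with respect to the vectors of sup norm one. -/
def schreier (d : ℕ) (X : Type u) [AddAction (Fin d → ℤ) X] : SimpleGraph X where
  Adj x y := x ≠ y ∧ ∃ γ : Fin d → ℤ, (∀ i, |γ i| ≤ 1) ∧ y = γ +ᵥ x
  symm := ⟨by
    rintro x y ⟨h, γ, h1, h2⟩
    refine ⟨h.symm, -γ, fun i => by simpa using h1 i, ?_⟩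
    rw [h2, neg_vadd_vadd]⟩
  loopless := ⟨fun x h => h.1 rfl⟩

/-- The graph `G^{≤ q}`: two points are joined when their distance in `G` is at most `q`. -/
def near {X : Type u} (G : SimpleGraph X) (q : ℕ) : SimpleGraph X where
  Adj x y := x ≠ y ∧ G.edist x y ≤ (q : ℕ∞)
  symm := ⟨by
    rintro x y ⟨h, h1⟩
    exact ⟨h.symm, by rwa [SimpleGraph.edist_comm]⟩⟩
  loopless := ⟨fun x h => h.1 rfl⟩

/-- The interior boundary of `R`: the points of `R` at distance at most one from the complement. -/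
def bdry {X : Type u} (G : SimpleGraph X) (R : Set X) : Set X :=
  {x | x ∈ R ∧ ∃ y, y ∉ R ∧ G.edist x y ≤ 1}

/-- `T` is a `q`-toast for `G`. -/
structure IsToast {X : Type u} (G : SimpleGraph X) (q : ℕ) (T : ℕ → Set X) : Prop where
  cover : ⋃ n, T n = Set.univ
  bdd : ∀ n, ∃ D : ℕ, ∀ x y : T n,
    ((near G q).induce (T n)).Reachable x y → G.edist (x : X) (y : X) ≤ (D : ℕ∞)
  far : ∀ n m, n < m → ∀ a ∈ T n, ∀ b ∈ bdry G (T m), (q : ℕ∞) ≤ G.edist a b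

/-! ## The combinatorics on one orbit -/

/-- Distance from `k` to the last point of `M j` at or before `k`. -/
noncomputable def prv (M : ℕ → Set ℤ) (j : ℕ) (k : ℤ) : ℕ := sInf {i : ℕ | k - (i : ℤ) ∈ M j}

/-- Distance from `k` to the first point of `M j` after `k`. -/
noncomputable def nxt (M : ℕ → Set ℤ) (j : ℕ) (k : ℤ) : ℕ :=
  sInf {i : ℕ | 1 ≤ i ∧ k + (i : ℤ) ∈ M j}

open Classical in
/-- The number of points of `M j` after the last point of `M (j+1)` and at or before `k`. -/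
noncomputable def idx (M : ℕ → Set ℤ) (j : ℕ) (k : ℤ) : ℕ :=
  ((Finset.range (prv M (j + 1) k)).filter (fun i : ℕ => k - (i : ℤ) ∈ M j)).card

def C (M : ℕ → Set ℤ) (j : ℕ) : Set ℤ := {k | idx M j k = 1 ∨ idx M j k = 3}

def Alive (M : ℕ → Set ℤ) (m : ℕ) : Set ℤ := {k | ∀ j, m ≤ j → k ∉ C M j}

/-- The layers. -/
def Lay (M : ℕ → Set ℤ) : ℕ → Set ℤ
  | 0 => Alive M 0
  | (m + 1) => C M m ∪ Alive M (m + 1)
      ∪ {k | idx M m k ≤ 1 ∧ k - (prv M (m + 1) k : ℤ) - 1 ∈ Alive M (m + 1)}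
      ∪ {k | 3 ≤ idx M m k ∧ k + (nxt M (m + 1) k : ℤ) ∈ Alive M (m + 1)}

structure Tower (L : ℕ) (B : ℕ → ℕ) (M : ℕ → Set ℤ) : Prop where
  nest : ∀ j, M (j + 1) ⊆ M j
  fwd : ∀ j (k : ℤ), ∃ i : ℕ, 1 ≤ i ∧ i ≤ B j ∧ k + (i : ℤ) ∈ M j
  bwd : ∀ j (k : ℤ), ∃ i : ℕ, i ≤ B j ∧ k - (i : ℤ) ∈ M j
  gap : ∀ a ∈ M 0, ∀ b ∈ M 0, a < b → (L : ℤ) ≤ b - a
  four : ∀ j, ∀ a ∈ M (j + 1), ∀ b ∈ M (j + 1), a < b →
    ∃ w₁ ∈ M j, ∃ w₂ ∈ M j, ∃ w₃ ∈ M j, ∃ w₄ ∈ M j, a < w₁ ∧ w₁ < w₂ ∧ w₂ < w₃ ∧ w₃ < w₄ ∧ w₄ < b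

/-- The basic facts on `prv`, `nxt`. -/
structure Prv (B : ℕ → ℕ) (M : ℕ → Set ℤ) : Prop where
  prv_mem : ∀ j k, k - (prv M j k : ℤ) ∈ M j
  prv_le : ∀ j k, prv M j k ≤ B j
  prv_min : ∀ j (k c : ℤ), k - (prv M j k : ℤ) < c → c ≤ k → c ∉ M j
  nxt_pos : ∀ j k, 1 ≤ nxt M j k
  nxt_mem : ∀ j k, k + (nxt M j k : ℤ) ∈ M j
  nxt_le : ∀ j k, nxt M j k ≤ B j
  nxt_min : ∀ j (k c : ℤ), k < c → c < k + (nxt M j k : ℤ) → c ∉ M j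
  prv_eq : ∀ j (k a : ℤ), a ≤ k → a ∈ M j → (∀ c, a < c → c ≤ k → c ∉ M j) →
    k - (prv M j k : ℤ) = a
  nxt_eq : ∀ j (k a : ℤ), k < a → a ∈ M j → (∀ c, k < c → c < a → c ∉ M j) →
    k + (nxt M j k : ℤ) = a
  nest_le : ∀ i j, i ≤ j → M j ⊆ M i

/-- The basic facts on `prv`, `nxt`, `idx`, `Alive`. -/
structure Bas (L : ℕ) (B : ℕ → ℕ) (M : ℕ → Set ℤ) : Prop extends Prv B M where
  idx_zero : ∀ j k, k ∈ M (j + 1) → idx M j k = 0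
  idx_last : ∀ j k, k + 1 ∈ M (j + 1) → 4 ≤ idx M j k
  idx_succ : ∀ j k, k + 1 ∈ M j → k + 1 ∉ M (j + 1) → idx M j (k + 1) = idx M j k + 1
  idx_same : ∀ j (a b : ℤ), a ≤ b → (∀ c, a < c → c ≤ b → c ∉ M j) → idx M j b = idx M j a
  alive_same : ∀ m (a b : ℤ), a ≤ b → (∀ c, a < c → c ≤ b → c ∉ M m) →
    (b ∈ Alive M m ↔ a ∈ Alive M m)
  len : ∀ j (a b : ℤ), a ∈ M j → b ∈ M j → a < b → (L : ℤ) + j ≤ b - a

def S_PRV : Prop := ∀ (L : ℕ) (B : ℕ → ℕ) (M : ℕ → Set ℤ), Tower L B M → Prv B M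

def S_IDX : Prop := ∀ (L : ℕ) (B : ℕ → ℕ) (M : ℕ → Set ℤ), Tower L B M → Prv B M →
  (∀ j k, k ∈ M (j + 1) → idx M j k = 0) ∧
  (∀ j k, k + 1 ∈ M (j + 1) → 4 ≤ idx M j k) ∧
  (∀ j k, k + 1 ∈ M j → k + 1 ∉ M (j + 1) → idx M j (k + 1) = idx M j k + 1) ∧
  (∀ j (a b : ℤ), a ≤ b → (∀ c, a < c → c ≤ b → c ∉ M j) → idx M j b = idx M j a)

def S_LEN : Prop := ∀ (L : ℕ) (B : ℕ → ℕ) (M : ℕ → Set ℤ), 1 ≤ L → Tower L B M →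
  ∀ j (a b : ℤ), a ∈ M j → b ∈ M j → a < b → (L : ℤ) + j ≤ b - a

/-- The right boundaries of a layer are far from all earlier layers. -/
def S_FARR : Prop := ∀ (L : ℕ) (B : ℕ → ℕ) (M : ℕ → Set ℤ) (q : ℕ), 1 ≤ L → q ≤ L →
  Tower L B M → Bas L B M → ∀ n m, n < m → ∀ a ∈ Lay M n, ∀ b ∈ Lay M m,
    b + 1 ∉ Lay M m → (q : ℤ) ≤ |a - b|

/-- The left boundaries of a layer are far from all earlier layers. -/
def S_FARL : Prop := ∀ (L : ℕ) (B : ℕ → ℕ) (M : ℕ → Set ℤ) (q : ℕ), 1 ≤ L → q ≤ L →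
  Tower L B M → Bas L B M → ∀ n m, n < m → ∀ a ∈ Lay M n, ∀ b ∈ Lay M m,
    b - 1 ∉ Lay M m → (q : ℤ) ≤ |a - b|

/-- Every layer has long gaps at bounded distance. -/
def S_GAP : Prop := ∀ (L : ℕ) (B : ℕ → ℕ) (q : ℕ) (n : ℕ), 1 ≤ L → q ≤ L →
  ∃ D : ℕ, ∀ M : ℕ → Set ℤ, Tower L B M → Bas L B M → ∀ k : ℤ,
    (∃ g : ℤ, k ≤ g ∧ g + q ≤ k + D ∧ ∀ i : ℤ, 0 ≤ i → i < q → g + i ∉ Lay M n) ∧
    (∃ g : ℤ, k - D ≤ g ∧ g + q ≤ k ∧ ∀ i : ℤ, 0 ≤ i → i < q → g + i ∉ Lay M n)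

/-- Every ball is contained in a layer. -/
def S_EXH : Prop := ∀ (L : ℕ) (B : ℕ → ℕ) (M : ℕ → Set ℤ), 1 ≤ L →
  Tower L B M → Bas L B M → ∀ (k : ℤ) (N : ℕ), ∃ n, ∀ i : ℤ, |i| ≤ N → k + i ∈ Lay M n

/-- The shift of a tower. -/
def sh (M : ℕ → Set ℤ) (t : ℤ) : ℕ → Set ℤ := fun j => {k | k + t ∈ M j}

def S_SHIFT : Prop := ∀ (M : ℕ → Set ℤ) (t : ℤ),
  (∀ j k, prv (sh M t) j k = prv M j (k + t)) ∧
  (∀ j k, nxt (sh M t) j k = nxt M j (k + t)) ∧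
  (∀ j k, idx (sh M t) j k = idx M j (k + t)) ∧
  (∀ m k, k ∈ Alive (sh M t) m ↔ k + t ∈ Alive M m) ∧
  (∀ n k, k ∈ Lay (sh M t) n ↔ k + t ∈ Lay M n)

/-! ## The topology -/

/-- A free continuous action of the integers. -/
structure IsFlow {X : Type u} [TopologicalSpace X] (φ : ℤ → X → X) : Prop where
  zero : ∀ x, φ 0 x = x
  add : ∀ a b x, φ (a + b) x = φ a (φ b x)
  cont : ∀ a, Continuous (φ a)
  free : ∀ a x, φ a x = x → a = 0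

/-- The visits of the orbit of `x` to the sets `N j`. -/
def itin {X : Type u} (φ : ℤ → X → X) (N : ℕ → Set X) (x : X) : ℕ → Set ℤ :=
  fun j => {k | φ k x ∈ N j}

/-- Clopen marker sets. -/
def S_MARK : Prop := ∀ (X : Type u) [TopologicalSpace X] [T2Space X] [SecondCountableTopology X]
  (_ : IsTopologicalBasis {s : Set X | IsClopen s}) (φ : ℤ → X → X), IsFlow φ → ∀ R : ℕ, 1 ≤ R →
    ∃ N : Set X, IsClopen N ∧ (∀ x ∈ N, ∀ k : ℤ, 0 < |k| → |k| < R → φ k x ∉ N) ∧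
      (∀ x, ∃ k : ℤ, |k| < R ∧ φ k x ∈ N)

/-- Every clopen marker set contains a sparser one. -/
def S_ONE : Prop := ∀ (X : Type u) [TopologicalSpace X] [T2Space X] [SecondCountableTopology X]
  (_ : IsTopologicalBasis {s : Set X | IsClopen s}) (φ : ℤ → X → X), IsFlow φ →
    ∀ (N : Set X) (b : ℕ), IsClopen N → (∀ x, ∃ i : ℕ, 1 ≤ i ∧ i ≤ b ∧ φ i x ∈ N) →
      ∃ (N' : Set X) (b' : ℕ), IsClopen N' ∧ N' ⊆ N ∧
        (∀ x, ∃ i : ℕ, 1 ≤ i ∧ i ≤ b' ∧ φ i x ∈ N') ∧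
        (∀ x, ∃ i : ℕ, i ≤ b' ∧ φ (-(i : ℤ)) x ∈ N') ∧
        (∀ x ∈ N', ∀ c : ℤ, 0 < c → φ c x ∈ N' →
          ∃ w₁ w₂ w₃ w₄ : ℤ, φ w₁ x ∈ N ∧ φ w₂ x ∈ N ∧ φ w₃ x ∈ N ∧ φ w₄ x ∈ N ∧
            0 < w₁ ∧ w₁ < w₂ ∧ w₂ < w₃ ∧ w₃ < w₄ ∧ w₄ < c)

/-- Towers of clopen marker sets. -/
def S_TOWER : Prop := ∀ (X : Type u) [TopologicalSpace X] [T2Space X] [SecondCountableTopology X]
  (_ : IsTopologicalBasis {s : Set X | IsClopen s}) (φ : ℤ → X → X), IsFlow φ →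
    ∀ L : ℕ, 1 ≤ L → ∃ (B : ℕ → ℕ) (N : ℕ → Set X), (∀ j, IsClopen (N j)) ∧
      ∀ x, Tower L B (itin φ N x)

/-- The basic functions are locally constant along the space. -/
def S_LOC : Prop := ∀ (X : Type u) [TopologicalSpace X] (φ : ℤ → X → X), IsFlow φ →
  ∀ (L : ℕ) (B : ℕ → ℕ) (N : ℕ → Set X), (∀ j, IsClopen (N j)) →
    (∀ x, Bas L B (itin φ N x)) → ∀ (j v : ℕ),
      IsClopen {x | prv (itin φ N x) j 0 = v} ∧ IsClopen {x | nxt (itin φ N x) j 0 = v} ∧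
      IsClopen {x | idx (itin φ N x) j 0 = v}

/-- The layers are closed. -/
def S_CLOSED : Prop := ∀ (X : Type u) [TopologicalSpace X] (φ : ℤ → X → X), IsFlow φ →
  ∀ (L : ℕ) (B : ℕ → ℕ) (N : ℕ → Set X), (∀ j, IsClopen (N j)) →
    (∀ x, Bas L B (itin φ N x)) → ∀ n, IsClosed {x | (0 : ℤ) ∈ Lay (itin φ N x) n}

/-- Distances in the Schreier graph of a `ℤ`-action. -/
def S_EDIST : Prop := ∀ (X : Type u) [AddAction (Fin 1 → ℤ) X] (a b : X) (k : ℕ),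
  (schreier 1 X).edist a b ≤ (k : ℕ∞) ↔ ∃ j : ℤ, |j| ≤ (k : ℤ) ∧ b = (fun _ : Fin 1 => j) +ᵥ a

/-- Long gaps at bounded distance give bounded components. -/
def S_CHAIN : Prop := ∀ (X : Type u) [AddAction (Fin 1 → ℤ) X] (T : Set X) (q D : ℕ),
  (∀ (a b : X) (k : ℕ), (schreier 1 X).edist a b ≤ (k : ℕ∞) ↔
    ∃ j : ℤ, |j| ≤ (k : ℤ) ∧ b = (fun _ : Fin 1 => j) +ᵥ a) →
  (∀ x : X, (∃ g : ℤ, 0 ≤ g ∧ g + q ≤ D ∧
      ∀ i : ℤ, 0 ≤ i → i < q → (fun _ : Fin 1 => g + i) +ᵥ x ∉ T) ∧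
    (∃ g : ℤ, -(D : ℤ) ≤ g ∧ g + q ≤ 0 ∧
      ∀ i : ℤ, 0 ≤ i → i < q → (fun _ : Fin 1 => g + i) +ᵥ x ∉ T)) →
  ∀ x y : T, ((near (schreier 1 X) q).induce T).Reachable x y →
    (schreier 1 X).edist (x : X) (y : X) ≤ (D : ℕ∞)

/-- Clopen proper colourings (any dimension). -/
def S_LIT : Prop := ∀ (d : ℕ) (X : Type u) [TopologicalSpace X] [T2Space X]
  [SecondCountableTopology X] [AddAction (Fin d → ℤ) X] [ContinuousConstVAdd (Fin d → ℤ) X]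
  (_ : IsTopologicalBasis {s : Set X | IsClopen s})
  (_ : ∀ (γ : Fin d → ℤ) (x : X), γ +ᵥ x = x → γ = 0),
    ∃ T : ℕ → Set X, (∀ n, IsClopen (T n)) ∧ ⋃ n, T n = Set.univ ∧
      (∀ n m, n ≠ m → Disjoint (T n) (T m)) ∧
      (∀ n, ∀ x ∈ T n, ∀ γ : Fin d → ℤ, γ ≠ 0 → (∀ i, |γ i| ≤ 1) → γ +ᵥ x ∉ T n)

/-- A partition into independent clopen sets is a `1`-toast. -/
def S_TRIV : Prop := ∀ (d : ℕ) (X : Type u) [AddAction (Fin d → ℤ) X] (T : ℕ → Set X),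
    ⋃ n, T n = Set.univ → (∀ n m, n ≠ m → Disjoint (T n) (T m)) →
    (∀ n, ∀ x ∈ T n, ∀ γ : Fin d → ℤ, γ ≠ 0 → (∀ i, |γ i| ≤ 1) → γ +ᵥ x ∉ T n) →
    IsToast (schreier d X) 1 T

end Pool.Agent.R944.TO
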