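import Mathlib
import Pool.Agent.R944.TO.Stm

/-! TO-Lit (MP_03d3f2_lc): clopen proper colourings. helper634. -/

open Set TopologicalSpace

universe u

namespace Pool.Agent.R944.TO.Lit

theorem main : S_LIT.{u} := by
  classical
  intro d X _ _ _ _ _ hbasis hfree
  have hfin : {γ : Fin d → ℤ | ∀ i, |γ i| ≤ 1}.Finite := by
    apply (Set.Finite.pi (fun _ : Fin d => Set.finite_Icc (-1 : ℤ) 1)).subset
    intro γ hγ i _
    exact Set.mem_Icc.2 (abs_le.1 (hγ i))
  set Γ : Finset (Fin d → ℤ) := hfin.toFinset.filter (fun γ => γ ≠ 0) with hΓ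
  have hmem : ∀ γ : Fin d → ℤ, γ ∈ Γ ↔ (∀ i, |γ i| ≤ 1) ∧ γ ≠ 0 := by
    intro γ
    rw [hΓ, Finset.mem_filter, Set.Finite.mem_toFinset]
    rfl
  have hU : ∀ x : X, ∃ U : Set X, IsClopen U ∧ x ∈ U ∧ ∀ y ∈ U, ∀ γ ∈ Γ, γ +ᵥ y ∉ U := by
    intro x
    have h1 : ∀ γ : Fin d → ℤ, ∃ W : Set X, γ ∈ Γ → (IsClopen W ∧ x ∈ W ∧ γ +ᵥ x ∉ W) := by
      intro γ
      by_cases hγ : γ ∈ Γ
      · have hne : γ +ᵥ x ≠ x := fun h => ((hmem γ).1 hγ).2 (hfree γ x h)
        obtain ⟨W, hW, hxW, hWs⟩ := hbasis.exists_subset_of_mem_open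
          (show x ∈ ({γ +ᵥ x} : Set X)ᶜ from fun h => hne (Set.mem_singleton_iff.1 h).symm)
          isOpen_compl_singleton
        exact ⟨W, fun _ => ⟨hW, hxW, fun h => hWs h rfl⟩⟩
      · exact ⟨∅, fun h => absurd h hγ⟩
    choose W hW using h1
    refine ⟨⋂ γ ∈ Γ, (W γ ∩ (fun y => γ +ᵥ y) ⁻¹' (W γ)ᶜ), ?_, ?_, ?_⟩
    · apply isClopen_biInter_finset
      intro γ hγ
      exact (hW γ hγ).1.inter ((hW γ hγ).1.compl.preimage (continuous_const_vadd γ))
    · simp only [Set.mem_iInter]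
      intro γ hγ
      exact ⟨(hW γ hγ).2.1, (hW γ hγ).2.2⟩
    · intro y hy γ hγ hcon
      simp only [Set.mem_iInter] at hy hcon
      exact (hy γ hγ).2 (hcon γ hγ).1
  choose U hUc hUx hUi using hU
  obtain ⟨s, hs, hcov⟩ := TopologicalSpace.countable_cover_nhds
    (fun x => (hUc x).isOpen.mem_nhds (hUx x))
  rcases s.eq_empty_or_nonempty with hse | hsne
  · subst hse
    have hempty : (Set.univ : Set X) = ∅ := by
      rw [← hcov]; simp
    refine ⟨fun _ => ∅, fun _ => isClopen_empty, ?_, fun _ _ _ => Set.disjoint_empty _, ?_⟩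
    · rw [hempty]; simp
    · intro n x hx
      exact absurd hx (Set.notMem_empty x)
  · obtain ⟨f, hf⟩ := hs.exists_eq_range hsne
    set V : ℕ → Set X := fun n => U (f n) with hV
    have hVcov : ∀ x, ∃ n, x ∈ V n := by
      intro x
      have : x ∈ ⋃ y ∈ s, U y := by rw [hcov]; trivial
      simp only [Set.mem_iUnion] at this
      obtain ⟨y, hy, hxy⟩ := this
      rw [hf] at hy
      obtain ⟨n, rfl⟩ := hy
      exact ⟨n, hxy⟩
    refine ⟨fun n => V n \ ⋃ i ∈ Finset.range n, V i, ?_, ?_, ?_, ?_⟩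
    · intro n
      exact (hUc (f n)).diff (isClopen_biUnion_finset (fun i _ => hUc (f i)))
    · apply Set.eq_univ_of_forall
      intro x
      rw [Set.mem_iUnion]
      refine ⟨Nat.find (hVcov x), Nat.find_spec (hVcov x), ?_⟩
      intro h
      simp only [Set.mem_iUnion, Finset.mem_range] at h
      obtain ⟨i, hi, hxi⟩ := h
      exact Nat.find_min (hVcov x) hi hxi
    · intro n m hnm
      rw [Set.disjoint_left]
      intro x hxn hxm
      rcases lt_or_gt_of_ne hnm with h | h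
      · apply hxm.2
        simp only [Set.mem_iUnion, Finset.mem_range]
        exact ⟨n, h, hxn.1⟩
      · apply hxn.2
        simp only [Set.mem_iUnion, Finset.mem_range]
        exact ⟨m, h, hxm.1⟩
    · intro n x hx γ hγ0 hγ hcon
      exact hUi (f n) x hx.1 γ ((hmem γ).2 ⟨hγ, hγ0⟩) hcon.1

end Pool.Agent.R944.TO.Lit
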