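import Pool.Agent.R944.TO.Stm

open Set TopologicalSpace

universe u

namespace Pool.Agent.R944.TO.Triv

open Pool.Agent.R944.TO

theorem main : S_TRIV.{u} := by
  intro d X _ T hcov hdis hind
  refine ⟨hcov, fun n => ⟨0, fun x y hxy => ?_⟩, fun n m hnm a ha b hb => ?_⟩
  · have hno : ∀ a b : T n, ¬ ((near (schreier d X) 1).induce (T n)).Adj a b := by
      rintro ⟨a, ha⟩ ⟨b, hb⟩ hab
      have hab' : a ≠ b ∧ (schreier d X).edist a b ≤ ((1 : ℕ) : ℕ∞) := hab
      obtain ⟨hne, hle⟩ := hab'
      rw [Nat.cast_one] at hle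
      have h1 : (schreier d X).edist a b = 1 := by
        rcases lt_or_eq_of_le hle with h | h
        · exfalso
          have h0 : (schreier d X).edist a b = 0 := ENat.lt_one_iff_eq_zero.1 h
          exact hne (SimpleGraph.edist_eq_zero_iff.1 h0)
        · exact h
      have h2 := SimpleGraph.edist_eq_one_iff_adj.1 h1
      obtain ⟨-, γ, hγ, hb'⟩ := h2
      have hγ0 : γ ≠ 0 := by
        rintro rfl
        rw [zero_vadd] at hb'
        exact hne hb'.symm
      have h3 := hind n a ha γ hγ0 hγ
      rw [← hb'] at h3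
      exact h3 hb
    obtain ⟨w⟩ := hxy
    cases w with
    | nil => simp
    | cons h _ => exact absurd h (hno _ _)
  · have hne : a ≠ b := by
      rintro rfl
      exact (Set.disjoint_left.1 (hdis n m hnm.ne)) ha hb.1
    rw [Nat.cast_one, ENat.one_le_iff_ne_zero]
    intro h
    exact hne (SimpleGraph.edist_eq_zero_iff.1 h)

end Pool.Agent.R944.TO.Triv
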