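import Pool.Agent.R944.TO.Stm
import Pool.Agent.R944.TO.Lit
import Pool.Agent.R944.TO.Triv

/-!
Not a hand-in: with `q = 1` the notion of toast of the problem file is met by clopen layers, in all
dimensions (colour classes of a clopen proper colouring). This only shows a slip in the wording.
-/

open Set TopologicalSpace

universe u

namespace Pool.Agent.R944.TO.Literal

theorem literal (d : ℕ) (X : Type u) [TopologicalSpace X] [PolishSpace X]
    [AddAction (Fin d → ℤ) X] [ContinuousConstVAdd (Fin d → ℤ) X]
    (hz : IsTopologicalBasis {s : Set X | IsClopen s})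
    (hfree : ∀ (γ : Fin d → ℤ) (x : X), γ +ᵥ x = x → γ = 0) :
    ∃ T : ℕ → Set X, (∀ n, IsClopen (T n)) ∧ IsToast (schreier d X) 1 T := by
  obtain ⟨T, h1, h2, h3, h4⟩ := Lit.main d X hz hfree
  exact ⟨T, h1, Triv.main d X T h2 h3 h4⟩

end Pool.Agent.R944.TO.Literal
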