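import Pool.Agent.R944.TO.Stm

/-!
# The basic functions are locally constant along the space
-/

set_option autoImplicit false

open Set TopologicalSpace Filter Topology

universe u

namespace Pool.Agent.R944.TO.Loc

open Pool.Agent.R944.TO

lemma agree {X : Type u} [TopologicalSpace X] {φ : ℤ → X → X} (hφ : IsFlow φ) {N : ℕ → Set X}
    (hN : ∀ j, IsClopen (N j)) (x : X) (j K : ℕ) :
    ∀ᶠ y in 𝓝 x, ∀ k ∈ Icc (-(K:ℤ)) K, (φ k y ∈ N j ↔ φ k x ∈ N j) := by
  rw [eventually_all_finite (finite_Icc _ _)]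
  intro k _
  have hc : IsClopen (φ k ⁻¹' N j) := (hN j).preimage (hφ.cont k)
  by_cases h : φ k x ∈ N j
  · filter_upwards [hc.isOpen.mem_nhds h] with y hy
    exact ⟨fun _ => h, fun _ => hy⟩
  · filter_upwards [hc.compl.isOpen.mem_nhds h] with y hy
    exact ⟨fun h1 => absurd h1 hy, fun h1 => absurd h1 h⟩

lemma prv_mono {B : ℕ → ℕ} {M M' : ℕ → Set ℤ} {j : ℕ} (h : Prv B M)
    (hk : ∀ k ∈ Icc (-(B j : ℤ)) (B j), (k ∈ M j ↔ k ∈ M' j)) : prv M' j 0 ≤ prv M j 0 := by
  apply Nat.sInf_le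
  have h1 := h.prv_mem j 0
  have h2 := h.prv_le j 0
  exact (hk _ ⟨by push_cast [zero_sub]; omega, by omega⟩).1 h1

lemma nxt_mono {B : ℕ → ℕ} {M M' : ℕ → Set ℤ} {j : ℕ} (h : Prv B M)
    (hk : ∀ k ∈ Icc (-(B j : ℤ)) (B j), (k ∈ M j ↔ k ∈ M' j)) : nxt M' j 0 ≤ nxt M j 0 := by
  apply Nat.sInf_le
  have h1 := h.nxt_mem j 0
  have h2 := h.nxt_le j 0
  exact ⟨h.nxt_pos j 0, (hk _ ⟨by omega, by omega⟩).1 h1⟩

open Classical in
theorem main : S_SHIFT → S_LOC.{u} := by
  intro _ X _ φ hφ L B N hN hB j v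
  have e1 : ∀ j, IsLocallyConstant (fun x => prv (itin φ N x) j 0) := by
    intro j
    rw [IsLocallyConstant.iff_eventually_eq]
    intro x
    filter_upwards [agree hφ hN x j (B j)] with y hy
    exact le_antisymm (prv_mono (hB x).toPrv fun k hk => (hy k hk).symm)
      (prv_mono (hB y).toPrv fun k hk => hy k hk)
  have e2 : ∀ j, IsLocallyConstant (fun x => nxt (itin φ N x) j 0) := by
    intro j
    rw [IsLocallyConstant.iff_eventually_eq]
    intro x
    filter_upwards [agree hφ hN x j (B j)] with y hy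
    exact le_antisymm (nxt_mono (hB x).toPrv fun k hk => (hy k hk).symm)
      (nxt_mono (hB y).toPrv fun k hk => hy k hk)
  have e3 : ∀ j, IsLocallyConstant (fun x => idx (itin φ N x) j 0) := by
    intro j
    rw [IsLocallyConstant.iff_eventually_eq]
    intro x
    filter_upwards [agree hφ hN x j (B (j + 1)),
      (IsLocallyConstant.iff_eventually_eq _).1 (e1 (j + 1)) x] with y hy hy2
    unfold idx
    rw [hy2]
    congr 1
    apply Finset.filter_congr
    intro i hi
    have h1 := Finset.mem_range.1 hi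
    have h2 := (hB x).prv_le (j + 1) 0
    exact hy _ ⟨by omega, by omega⟩
  exact ⟨(e1 j).isClopen_fiber v, (e2 j).isClopen_fiber v, (e3 j).isClopen_fiber v⟩

end Pool.Agent.R944.TO.Loc
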