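import Pool.Agent.R944.TO.Stm

open Set TopologicalSpace

universe u

namespace Pool.Agent.R944.TO

theorem bas_of (hPRV : S_PRV) (hIDX : S_IDX) (hLEN : S_LEN) (L : ℕ) (B : ℕ → ℕ)
    (M : ℕ → Set ℤ) (hL : 1 ≤ L) (hT : Tower L B M) : Bas L B M := by
  have hp := hPRV L B M hT
  obtain ⟨h1, h2, h3, h4⟩ := hIDX L B M hT hp
  have h5 := hLEN L B M hL hT
  refine ⟨hp, h1, h2, h3, h4, ?_, h5⟩
  intro m a b hab hc
  have key : ∀ j, m ≤ j → (b ∈ C M j ↔ a ∈ C M j) := by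
    intro j hj
    have : idx M j b = idx M j a := h4 j a b hab
      (fun c h1 h2 h3 => hc c h1 h2 (hp.nest_le m j hj h3))
    simp only [C, mem_ofPred_eq, this]
  constructor
  · intro h j hj hC
    exact h j hj ((key j hj).2 hC)
  · intro h j hj hC
    exact h j hj ((key j hj).1 hC)

/-- the flow of an action of `ℤ^1` -/
def flow (X : Type u) [AddAction (Fin 1 → ℤ) X] : ℤ → X → X := fun k x => (fun _ : Fin 1 => k) +ᵥ x

theorem isFlow (X : Type u) [TopologicalSpace X] [AddAction (Fin 1 → ℤ) X]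
    [ContinuousConstVAdd (Fin 1 → ℤ) X] (hfree : ∀ (γ : Fin 1 → ℤ) (x : X), γ +ᵥ x = x → γ = 0) :
    IsFlow (flow X) := by
  refine ⟨?_, ?_, ?_, ?_⟩
  · intro x
    show (fun _ : Fin 1 => (0 : ℤ)) +ᵥ x = x
    exact zero_vadd _ x
  · intro a b x
    show (fun _ : Fin 1 => a + b) +ᵥ x = (fun _ : Fin 1 => a) +ᵥ ((fun _ : Fin 1 => b) +ᵥ x)
    rw [vadd_vadd]
    rfl
  · intro a
    exact continuous_const_vadd _
  · intro a x h
    have := hfree _ x h
    exact congrFun this 0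

theorem itin_flow {X : Type u} [TopologicalSpace X] {φ : ℤ → X → X} (hφ : IsFlow φ)
    (N : ℕ → Set X) (x : X) (t : ℤ) : itin φ N (φ t x) = sh (itin φ N x) t := by
  funext j
  ext k
  simp only [itin, sh, mem_ofPred_eq]
  rw [← hφ.add]

theorem assembly (hPRV : S_PRV) (hIDX : S_IDX) (hLEN : S_LEN) (hFARR : S_FARR) (hFARL : S_FARL)
    (hGAP : S_GAP) (hEXH : S_EXH) (hSHIFT : S_SHIFT) (hTOWER : S_TOWER.{u})
    (hCLOSED : S_CLOSED.{u}) (hEDIST : S_EDIST.{u}) (hCHAIN : S_CHAIN.{u})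
    (X : Type u) [TopologicalSpace X] [PolishSpace X] [AddAction (Fin 1 → ℤ) X]
    [ContinuousConstVAdd (Fin 1 → ℤ) X] (hz : IsTopologicalBasis {s : Set X | IsClopen s})
    (hfree : ∀ (γ : Fin 1 → ℤ) (x : X), γ +ᵥ x = x → γ = 0) (q : ℕ) :
    ∃ T : ℕ → Set X, (∀ n, IsClosed (T n)) ∧ IsToast (schreier 1 X) q T ∧
      ∀ (x : X) (N : ℕ), ∃ n, ∀ y, (schreier 1 X).edist x y ≤ (N : ℕ∞) → y ∈ T n := by
  have hφ := isFlow X hfree
  obtain ⟨B, N, hN, hT⟩ := hTOWER X hz (flow X) hφ (q + 1) (by omega)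
  have hB : ∀ x, Bas (q + 1) B (itin (flow X) N x) := fun x =>
    bas_of hPRV hIDX hLEN _ _ _ (by omega) (hT x)
  set T : ℕ → Set X := fun n => {x | (0 : ℤ) ∈ Lay (itin (flow X) N x) n} with hTdef
  have hmem : ∀ (n : ℕ) (k : ℤ) (x : X),
      (fun _ : Fin 1 => k) +ᵥ x ∈ T n ↔ k ∈ Lay (itin (flow X) N x) n := by
    intro n k x
    show (0 : ℤ) ∈ Lay (itin (flow X) N (flow X k x)) n ↔ _
    rw [itin_flow hφ, (hSHIFT _ _).2.2.2.2 n 0, zero_add]
  have hmem0 : ∀ (n : ℕ) (x : X), x ∈ T n ↔ (0 : ℤ) ∈ Lay (itin (flow X) N x) n := fun n x => Iff.rfl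
  have hball : ∀ (x : X) (N : ℕ), ∃ n, ∀ y, (schreier 1 X).edist x y ≤ (N : ℕ∞) → y ∈ T n := by
    intro x K
    obtain ⟨n, hn⟩ := hEXH (q + 1) B (itin (flow X) N x) (by omega) (hT x) (hB x) 0 K
    refine ⟨n, fun y hy => ?_⟩
    obtain ⟨j, hj, rfl⟩ := (hEDIST X x y K).1 hy
    rw [hmem]
    have := hn j hj
    rwa [zero_add] at this
  refine ⟨T, hCLOSED X (flow X) hφ (q + 1) B N hN hB, ⟨?_, ?_, ?_⟩, hball⟩
  · ext x
    simp only [mem_iUnion, mem_univ, iff_true]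
    obtain ⟨n, hn⟩ := hball x 0
    exact ⟨n, hn x (by simp)⟩
  · intro n
    obtain ⟨D, hD⟩ := hGAP (q + 1) B q n (by omega) (by omega)
    refine ⟨D, hCHAIN X (T n) q D (hEDIST X) ?_⟩
    intro x
    obtain ⟨⟨g, h1, h2, h3⟩, ⟨g', h1', h2', h3'⟩⟩ := hD (itin (flow X) N x) (hT x) (hB x) 0
    refine ⟨⟨g, h1, by omega, fun i hi hi' => ?_⟩, ⟨g', by omega, h2', fun i hi hi' => ?_⟩⟩
    · rw [hmem]; exact h3 i hi hi'
    · rw [hmem]; exact h3' i hi hi'
  · intro n m hnm a ha b hb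
    obtain ⟨hb1, y, hy, hby⟩ := hb
    by_contra hlt
    rw [not_le] at hlt
    obtain ⟨k, hk⟩ := ENat.ne_top_iff_exists.1 (ne_top_of_lt hlt)
    have hkq : k < q := by
      have : (k : ℕ∞) < q := by rw [hk]; exact hlt
      exact_mod_cast this
    have hab : (schreier 1 X).edist b a ≤ (k : ℕ∞) := by
      rw [SimpleGraph.edist_comm, ← hk]
    obtain ⟨i, hi, hai⟩ := (hEDIST X b a k).1 hab
    obtain ⟨j, hj, hyj⟩ := (hEDIST X b y 1).1 (by exact_mod_cast hby)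
    have hbL : (0 : ℤ) ∈ Lay (itin (flow X) N b) m := hb1
    have haL : i ∈ Lay (itin (flow X) N b) n := by
      rw [← hmem, ← hai]; exact ha
    have hyL : j ∉ Lay (itin (flow X) N b) m := by
      rw [← hmem, ← hyj]; exact hy
    have hj' : j = 1 ∨ j = -1 := by
      have h0 : j ≠ 0 := by
        rintro rfl
        exact hyL hbL
      have h1 := abs_le.1 hj
      push_cast at h1
      omega
    have hres : (q : ℤ) ≤ |i - 0| := by
      rcases hj' with rfl | rfl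
      · exact hFARR (q + 1) B _ q (by omega) (by omega) (hT b) (hB b) n m hnm i haL 0 hbL
          (by simpa using hyL)
      · exact hFARL (q + 1) B _ q (by omega) (by omega) (hT b) (hB b) n m hnm i haL 0 hbL
          (by simpa using hyL)
    rw [sub_zero] at hres
    omega

end Pool.Agent.R944.TO
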