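import Pool.Agent.R944.TO.Stm

open Set TopologicalSpace

universe u

namespace Pool.Agent.R944.TO.Mark

variable {X : Type u} [TopologicalSpace X]

/-- The nonzero integers of absolute value less than `R`. -/
noncomputable def rng (R : ℕ) : Finset ℤ := (Finset.Ioo (-(R : ℤ)) R).filter (fun k => k ≠ 0)

theorem mem_rng {R : ℕ} {k : ℤ} : k ∈ rng R ↔ 0 < |k| ∧ |k| < R := by
  unfold rng
  rw [Finset.mem_filter, Finset.mem_Ioo, abs_pos, abs_lt]
  tauto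

/-- A small clopen neighbourhood that is disjoint from its translates. -/
theorem local_nhd [T2Space X] (hb : IsTopologicalBasis {s : Set X | IsClopen s})
    (φ : ℤ → X → X) (hφ : IsFlow φ) (R : ℕ) (x : X) :
    ∃ U : Set X, IsClopen U ∧ x ∈ U ∧ ∀ y ∈ U, ∀ k : ℤ, 0 < |k| → |k| < R → φ k y ∉ U := by
  have h1 : ∀ k : ℤ, ∃ W : Set X, IsClopen W ∧ x ∈ W ∧ (k ≠ 0 → φ k x ∉ W) := by
    intro k
    by_cases hk : k = 0
    · exact ⟨univ, isClopen_univ, mem_univ _, fun h => absurd hk h⟩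
    · have hne : φ k x ≠ x := fun h => hk (hφ.free k x h)
      have hop : IsOpen ({φ k x}ᶜ : Set X) := isOpen_compl_singleton
      obtain ⟨W, hW, hxW, hWs⟩ := hb.exists_subset_of_mem_open
        (show x ∈ ({φ k x}ᶜ : Set X) from fun h => hne h.symm) hop
      exact ⟨W, hW, hxW, fun _ h => hWs h rfl⟩
  choose W hW hxW hkW using h1
  refine ⟨⋂ k ∈ rng R, (W k ∩ (φ k) ⁻¹' (W k)ᶜ), ?_, ?_, ?_⟩
  · exact isClopen_biInter_finset
      (fun k _ => (hW k).inter ((hW k).compl.preimage (hφ.cont k)))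
  · refine mem_iInter₂.2 fun k hk => ⟨hxW k, hkW k ?_⟩
    exact abs_pos.1 (mem_rng.1 hk).1
  · intro y hy k hk0 hkR h
    have hkS : k ∈ rng R := mem_rng.2 ⟨hk0, hkR⟩
    have h1 := (mem_iInter₂.1 hy k hkS).2
    have h2 := (mem_iInter₂.1 h k hkS).1
    exact h1 h2

/-- A countable cover by such neighbourhoods. -/
theorem seq_nhd [T2Space X] [SecondCountableTopology X]
    (hb : IsTopologicalBasis {s : Set X | IsClopen s})
    (φ : ℤ → X → X) (hφ : IsFlow φ) (R : ℕ) :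
    ∃ U : ℕ → Set X, (∀ i, IsClopen (U i)) ∧
      (∀ i, ∀ y ∈ U i, ∀ k : ℤ, 0 < |k| → |k| < R → φ k y ∉ U i) ∧ ∀ x, ∃ i, x ∈ U i := by
  choose W hW hxW hk using local_nhd hb φ hφ R
  obtain ⟨s, hs, hcov⟩ := TopologicalSpace.countable_cover_nhds
    (fun x => (hW x).isOpen.mem_nhds (hxW x))
  rcases s.eq_empty_or_nonempty with h0 | h0
  · refine ⟨fun _ => ∅, fun _ => isClopen_empty, fun i y hy => absurd hy (notMem_empty y), ?_⟩
    intro x
    exfalso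
    have : x ∈ ⋃ x ∈ s, W x := by rw [hcov]; exact mem_univ x
    rw [h0] at this
    simp at this
  · obtain ⟨f, hf⟩ := hs.exists_eq_range h0
    refine ⟨fun i => W (f i), fun i => hW _, fun i => hk _, fun x => ?_⟩
    have : x ∈ ⋃ x ∈ s, W x := by rw [hcov]; exact mem_univ x
    obtain ⟨y, hy, hxy⟩ := mem_iUnion₂.1 this
    rw [hf] at hy
    obtain ⟨i, rfl⟩ := hy
    exact ⟨i, hxy⟩

/-- The greedy construction. -/
def V (φ : ℤ → X → X) (R : ℕ) (U : ℕ → Set X) : ℕ → Set X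
  | 0 => ∅
  | (i + 1) => V φ R U i ∪ (U i \ ⋃ k ∈ Finset.Ioo (-(R : ℤ)) R, (φ k) ⁻¹' (V φ R U i))

theorem clopenV (φ : ℤ → X → X) (hφ : IsFlow φ) (R : ℕ) (U : ℕ → Set X)
    (hU : ∀ i, IsClopen (U i)) (i : ℕ) : IsClopen (V φ R U i) := by
  induction i with
  | zero => exact isClopen_empty
  | succ i ih =>
    exact ih.union ((hU i).diff (isClopen_biUnion_finset fun k _ => ih.preimage (hφ.cont k)))

theorem sepV (φ : ℤ → X → X) (hφ : IsFlow φ) (R : ℕ) (U : ℕ → Set X)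
    (hU : ∀ i, ∀ y ∈ U i, ∀ k : ℤ, 0 < |k| → |k| < R → φ k y ∉ U i) (i : ℕ) :
    ∀ x ∈ V φ R U i, ∀ k : ℤ, 0 < |k| → |k| < R → φ k x ∉ V φ R U i := by
  induction i with
  | zero => intro x hx; exact absurd hx (notMem_empty x)
  | succ i ih =>
    intro x hx k hk0 hkR hkx
    have key : ∀ y, y ∈ U i \ ⋃ k ∈ Finset.Ioo (-(R : ℤ)) R, (φ k) ⁻¹' (V φ R U i) →
        ∀ l : ℤ, |l| < R → φ l y ∉ V φ R U i := by
      intro y hy l hl h
      refine hy.2 (mem_iUnion₂.2 ⟨l, ?_, h⟩)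
      rw [Finset.mem_Ioo]
      exact abs_lt.1 hl
    rcases hx with hx | hx
    · rcases hkx with hkx | hkx
      · exact ih x hx k hk0 hkR hkx
      · refine key _ hkx (-k) (by rwa [abs_neg]) ?_
        rw [← hφ.add, neg_add_cancel, hφ.zero]
        exact hx
    · rcases hkx with hkx | hkx
      · exact key x hx k hkR hkx
      · exact hU i x hx.1 k hk0 hkR hkx.1

omit [TopologicalSpace X] in
theorem monoV (φ : ℤ → X → X) (R : ℕ) (U : ℕ → Set X) : Monotone (V φ R U) :=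
  monotone_nat_of_le_succ fun _ _ hx => Or.inl hx

theorem main : S_MARK.{u} := by
  intro X _ _ _ hb φ hφ R hR
  obtain ⟨U, hUc, hUs, hUx⟩ := seq_nhd hb φ hφ R
  have hsep : ∀ x ∈ ⋃ i, V φ R U i, ∀ k : ℤ, 0 < |k| → |k| < R →
      φ k x ∉ ⋃ i, V φ R U i := by
    intro x hx k hk0 hkR hkx
    obtain ⟨i, hi⟩ := mem_iUnion.1 hx
    obtain ⟨j, hj⟩ := mem_iUnion.1 hkx
    exact sepV φ hφ R U hUs (max i j) x (monoV φ R U (le_max_left i j) hi) k hk0 hkR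
      (monoV φ R U (le_max_right i j) hj)
  have hcov : ∀ x, ∃ k : ℤ, |k| < R ∧ φ k x ∈ ⋃ i, V φ R U i := by
    intro x
    obtain ⟨i, hi⟩ := hUx x
    by_cases h : ∃ k : ℤ, |k| < R ∧ φ k x ∈ V φ R U i
    · obtain ⟨k, hk, hkx⟩ := h
      exact ⟨k, hk, mem_iUnion.2 ⟨i, hkx⟩⟩
    · refine ⟨0, by rw [abs_zero]; exact_mod_cast hR, mem_iUnion.2 ⟨i + 1, ?_⟩⟩
      rw [hφ.zero]
      refine Or.inr ⟨hi, fun h' => h ?_⟩
      obtain ⟨k, hk, hkx⟩ := mem_iUnion₂.1 h'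
      rw [Finset.mem_Ioo] at hk
      exact ⟨k, abs_lt.2 hk, hkx⟩
  have hop : IsOpen (⋃ i, V φ R U i) := isOpen_iUnion fun i => (clopenV φ hφ R U hUc i).isOpen
  refine ⟨⋃ i, V φ R U i, ⟨?_, hop⟩, hsep, hcov⟩
  rw [← isOpen_compl_iff]
  have he : (⋃ i, V φ R U i)ᶜ = ⋃ k ∈ rng R, (φ k) ⁻¹' (⋃ i, V φ R U i) := by
    ext x
    constructor
    · intro hx
      obtain ⟨k, hk, hkx⟩ := hcov x
      refine mem_iUnion₂.2 ⟨k, mem_rng.2 ⟨abs_pos.2 ?_, hk⟩, hkx⟩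
      rintro rfl
      rw [hφ.zero] at hkx
      exact hx hkx
    · intro hx h
      obtain ⟨k, hk, hkx⟩ := mem_iUnion₂.1 hx
      exact hsep x h k (mem_rng.1 hk).1 (mem_rng.1 hk).2 hkx
  rw [he]
  exact isOpen_biUnion fun k _ => hop.preimage (hφ.cont k)

end Pool.Agent.R944.TO.Mark
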