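import Pool.Agent.R944.TO.Stm

open Set TopologicalSpace

universe u

namespace Pool.Agent.R944.TO.One

open Pool.Agent.R944.TO

lemma key {X : Type u} [TopologicalSpace X] {φ : ℤ → X → X} (hφ : IsFlow φ) (a b : ℤ) (x : X) :
    φ a (φ b x) = φ (a + b) x := (hφ.add a b x).symm

/-- the set of first points of `N` at or after `Q` -/
def NP {X : Type u} (φ : ℤ → X → X) (N Q : Set X) (b : ℕ) : Set X :=
  N ∩ ⋃ i ∈ Finset.range (b + 1), ((φ (-(i : ℤ))) ⁻¹' Q ∩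
    ⋂ i' ∈ Finset.Icc 1 i, ((φ (-(i' : ℤ))) ⁻¹' N)ᶜ)

lemma mem_NP {X : Type u} (φ : ℤ → X → X) (N Q : Set X) (b : ℕ) (y : X) :
    y ∈ NP φ N Q b ↔ y ∈ N ∧ ∃ i : ℕ, i ≤ b ∧ φ (-(i : ℤ)) y ∈ Q ∧
      ∀ i' : ℕ, 1 ≤ i' → i' ≤ i → φ (-(i' : ℤ)) y ∉ N := by
  unfold NP
  simp only [mem_inter_iff, mem_iUnion, mem_iInter, Finset.mem_range, Finset.mem_Icc,
    mem_preimage, mem_compl_iff, exists_prop, Nat.lt_succ_iff, and_imp]

lemma clopen_NP {X : Type u} [TopologicalSpace X] {φ : ℤ → X → X} (hφ : IsFlow φ)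
    {N Q : Set X} (hN : IsClopen N) (hQ : IsClopen Q) (b : ℕ) : IsClopen (NP φ N Q b) := by
  unfold NP
  refine hN.inter ?_
  apply isClopen_biUnion_finset
  intro i _
  refine (hQ.preimage (hφ.cont _)).inter ?_
  apply isClopen_biInter_finset
  intro i' _
  exact (hN.preimage (hφ.cont _)).compl

theorem main : S_MARK.{u} → S_ONE.{u} := by
  intro hM X _ _ _ hbasis φ hφ N b hN hb
  obtain ⟨Q, hQ, hsep, hcov⟩ := hM X hbasis φ hφ (6 * b + 1) (by omega)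
  have K1 : ∀ z ∈ Q, ∃ i : ℕ, i ≤ b ∧ φ i z ∈ NP φ N Q b := by
    intro z hz
    classical
    have hex : ∃ i : ℕ, φ i z ∈ N := by
      obtain ⟨i, _, _, hi⟩ := hb z
      exact ⟨i, hi⟩
    have hle : Nat.find hex ≤ b := by
      obtain ⟨i, _, hib, hi⟩ := hb z
      exact (Nat.find_min' hex hi).trans hib
    refine ⟨Nat.find hex, hle, ?_⟩
    rw [mem_NP]
    refine ⟨Nat.find_spec hex, Nat.find hex, hle, ?_, ?_⟩
    · rw [key hφ, neg_add_cancel, hφ.zero]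
      exact hz
    · intro i' h1 h2
      rw [key hφ]
      have h3 : Nat.find hex - i' < Nat.find hex := by omega
      have := Nat.find_min hex h3
      rw [show (-(i' : ℤ) + (Nat.find hex : ℤ)) = ((Nat.find hex - i' : ℕ) : ℤ) by
        rw [Nat.cast_sub h2]; ring]
      exact this
  refine ⟨NP φ N Q b, 2 * (6 * b + 1) + 2 * b, clopen_NP hφ hN hQ b, ?_, ?_, ?_, ?_⟩
  · intro y hy
    exact ((mem_NP φ N Q b y).1 hy).1
  · intro x
    obtain ⟨k, hk, hkQ⟩ := hcov (φ ((6 * b + 1 : ℕ) : ℤ) x)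
    rw [key hφ] at hkQ
    obtain ⟨i, hi, hiN⟩ := K1 _ hkQ
    rw [key hφ] at hiN
    rw [abs_lt] at hk
    push_cast at hk hiN
    refine ⟨(i + (k + (6 * b + 1)) : ℤ).toNat, by omega, by omega, ?_⟩
    rw [Int.toNat_of_nonneg (by omega)]
    exact hiN
  · intro x
    obtain ⟨k, hk, hkQ⟩ := hcov (φ (-((6 * b + 1 + b : ℕ) : ℤ)) x)
    rw [key hφ] at hkQ
    obtain ⟨i, hi, hiN⟩ := K1 _ hkQ
    rw [key hφ] at hiN
    rw [abs_lt] at hk
    push_cast at hk hiN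
    refine ⟨(-(i + (k + -(6 * b + 1 + b))) : ℤ).toNat, by omega, ?_⟩
    rw [Int.toNat_of_nonneg (by omega), neg_neg]
    exact hiN
  · intro x hx c hc hcx
    rw [mem_NP] at hx hcx
    obtain ⟨hxN, i, hib, hiQ, hi⟩ := hx
    obtain ⟨hcN, j, hjb, hjQ, hj⟩ := hcx
    rw [key hφ] at hjQ
    have hcb : (4 * b : ℤ) < c := by
      by_contra hcon
      push Not at hcon
      have hne : c - j + i ≠ 0 := by
        intro h0
        have h1 := hj c.toNat (by omega) (by omega)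
        rw [Int.toNat_of_nonneg hc.le, key hφ, neg_add_cancel, hφ.zero] at h1
        exact h1 hxN
      have h2 := hsep _ hiQ (c - j + i) (abs_pos.2 hne) (by
        rw [abs_lt]; push_cast; constructor <;> omega)
      rw [key hφ] at h2
      apply h2
      rw [show c - (j : ℤ) + i + -(i : ℤ) = -(j : ℤ) + c by ring]
      exact hjQ
    obtain ⟨i1, a1, b1, c1⟩ := hb x
    obtain ⟨i2, a2, b2, c2⟩ := hb (φ (i1 : ℤ) x)
    rw [key hφ] at c2
    obtain ⟨i3, a3, b3, c3⟩ := hb (φ ((i2 : ℤ) + i1) x)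
    rw [key hφ] at c3
    obtain ⟨i4, a4, b4, c4⟩ := hb (φ ((i3 : ℤ) + (i2 + i1)) x)
    rw [key hφ] at c4
    exact ⟨_, _, _, _, c1, c2, c3, c4, by omega, by omega, by omega, by omega, by omega⟩

end Pool.Agent.R944.TO.One
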