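import Pool.Agent.R944.TO.Stm

/-!
# Project TO, piece Prv (helper567)
-/

set_option autoImplicit false

namespace Pool.Agent.R944.TO.Prv

open Pool.Agent.R944.TO

theorem main : S_PRV := by
  intro L B M hT
  have ne1 : ∀ j k, {i : ℕ | k - (i : ℤ) ∈ M j}.Nonempty := by
    intro j k
    obtain ⟨i, -, hi⟩ := hT.bwd j k
    exact ⟨i, hi⟩
  have ne2 : ∀ j k, {i : ℕ | 1 ≤ i ∧ k + (i : ℤ) ∈ M j}.Nonempty := by
    intro j k
    obtain ⟨i, h1, -, hi⟩ := hT.fwd j k
    exact ⟨i, h1, hi⟩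
  have pm : ∀ j k, k - (prv M j k : ℤ) ∈ M j := fun j k => Nat.sInf_mem (ne1 j k)
  have nm : ∀ j k, 1 ≤ nxt M j k ∧ k + (nxt M j k : ℤ) ∈ M j := fun j k => Nat.sInf_mem (ne2 j k)
  have pmin : ∀ j (k c : ℤ), k - (prv M j k : ℤ) < c → c ≤ k → c ∉ M j := by
    intro j k c h1 h2 hc
    have h3 : prv M j k ≤ (k - c).toNat := Nat.sInf_le (by
      change k - ((k - c).toNat : ℤ) ∈ M j
      rw [Int.toNat_of_nonneg (by omega)]
      rwa [sub_sub_cancel])
    omega
  have nmin : ∀ j (k c : ℤ), k < c → c < k + (nxt M j k : ℤ) → c ∉ M j := by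
    intro j k c h1 h2 hc
    have h3 : nxt M j k ≤ (c - k).toNat := Nat.sInf_le (by
      change 1 ≤ (c - k).toNat ∧ k + ((c - k).toNat : ℤ) ∈ M j
      refine ⟨by omega, ?_⟩
      rw [Int.toNat_of_nonneg (by omega)]
      rwa [add_sub_cancel])
    omega
  refine ⟨pm, ?_, pmin, fun j k => (nm j k).1, fun j k => (nm j k).2, ?_, nmin, ?_, ?_, ?_⟩
  · intro j k
    obtain ⟨i, hi, hk⟩ := hT.bwd j k
    exact le_trans (Nat.sInf_le hk) hi
  · intro j k
    obtain ⟨i, h1, hi, hk⟩ := hT.fwd j k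
    exact le_trans (Nat.sInf_le ⟨h1, hk⟩) hi
  · intro j k a hak ha hno
    rcases lt_trichotomy (k - (prv M j k : ℤ)) a with h | h | h
    · exact absurd ha (pmin j k a h hak)
    · exact h
    · exact absurd (pm j k) (hno _ h (by omega))
  · intro j k a hka ha hno
    have h1 := nm j k
    rcases lt_trichotomy (k + (nxt M j k : ℤ)) a with h | h | h
    · exact absurd h1.2 (hno _ (by omega) h)
    · exact h
    · exact absurd ha (nmin j k a hka h)
  · intro i j hij
    induction j, hij using Nat.le_induction with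
    | base => exact subset_rfl
    | succ n _ ih => exact (hT.nest n).trans ih

end Pool.Agent.R944.TO.Prv
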