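import Pool.Agent.R944.TO.Stm

/-!
# TO-Shift: shift invariance
-/

open Set TopologicalSpace

namespace Pool.Agent.R944.TO.Shift

open Pool.Agent.R944.TO

theorem mem_sh (M : ℕ → Set ℤ) (t : ℤ) (j : ℕ) (k : ℤ) : k ∈ sh M t j ↔ k + t ∈ M j := Iff.rfl

theorem prv_sh (M : ℕ → Set ℤ) (t : ℤ) (j : ℕ) (k : ℤ) : prv (sh M t) j k = prv M j (k + t) := by
  unfold prv
  congr 1
  ext i
  rw [mem_ofPred_eq, mem_ofPred_eq, mem_sh, show k - (i : ℤ) + t = k + t - (i : ℤ) by ring]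

theorem nxt_sh (M : ℕ → Set ℤ) (t : ℤ) (j : ℕ) (k : ℤ) : nxt (sh M t) j k = nxt M j (k + t) := by
  unfold nxt
  congr 1
  ext i
  rw [mem_ofPred_eq, mem_ofPred_eq, mem_sh, show k + (i : ℤ) + t = k + t + (i : ℤ) by ring]

theorem idx_sh (M : ℕ → Set ℤ) (t : ℤ) (j : ℕ) (k : ℤ) : idx (sh M t) j k = idx M j (k + t) := by
  classical
  unfold idx
  rw [prv_sh]
  congr 1
  apply Finset.filter_congr
  intro i _
  rw [mem_sh, show k - (i : ℤ) + t = k + t - (i : ℤ) by ring]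

theorem C_sh (M : ℕ → Set ℤ) (t : ℤ) (j : ℕ) (k : ℤ) : k ∈ C (sh M t) j ↔ k + t ∈ C M j := by
  show (idx (sh M t) j k = 1 ∨ idx (sh M t) j k = 3) ↔
    (idx M j (k + t) = 1 ∨ idx M j (k + t) = 3)
  rw [idx_sh]

theorem alive_sh (M : ℕ → Set ℤ) (t : ℤ) (m : ℕ) (k : ℤ) :
    k ∈ Alive (sh M t) m ↔ k + t ∈ Alive M m := by
  show (∀ j, m ≤ j → k ∉ C (sh M t) j) ↔ (∀ j, m ≤ j → k + t ∉ C M j)
  simp only [C_sh]

theorem lay_sh (M : ℕ → Set ℤ) (t : ℤ) (n : ℕ) (k : ℤ) :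
    k ∈ Lay (sh M t) n ↔ k + t ∈ Lay M n := by
  rcases n with _ | m
  · exact alive_sh M t 0 k
  · show (((k ∈ C (sh M t) m ∨ k ∈ Alive (sh M t) (m + 1)) ∨
        (idx (sh M t) m k ≤ 1 ∧ k - (prv (sh M t) (m + 1) k : ℤ) - 1 ∈ Alive (sh M t) (m + 1))) ∨
        (3 ≤ idx (sh M t) m k ∧ k + (nxt (sh M t) (m + 1) k : ℤ) ∈ Alive (sh M t) (m + 1))) ↔
      (((k + t ∈ C M m ∨ k + t ∈ Alive M (m + 1)) ∨
        (idx M m (k + t) ≤ 1 ∧ k + t - (prv M (m + 1) (k + t) : ℤ) - 1 ∈ Alive M (m + 1))) ∨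
        (3 ≤ idx M m (k + t) ∧ k + t + (nxt M (m + 1) (k + t) : ℤ) ∈ Alive M (m + 1)))
    rw [C_sh, alive_sh, alive_sh, alive_sh, idx_sh, prv_sh, nxt_sh,
      show k - (prv M (m + 1) (k + t) : ℤ) - 1 + t = k + t - (prv M (m + 1) (k + t) : ℤ) - 1 by ring,
      show k + (nxt M (m + 1) (k + t) : ℤ) + t = k + t + (nxt M (m + 1) (k + t) : ℤ) by ring]

theorem main : S_SHIFT := fun M t =>
  ⟨prv_sh M t, nxt_sh M t, idx_sh M t, alive_sh M t, lay_sh M t⟩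

end Pool.Agent.R944.TO.Shift
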