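import Pool.Agent.R944.TO.Stm

set_option autoImplicit false

open Set TopologicalSpace

universe u

namespace Pool.Agent.R944.TO.Tower

/-- The data at one level of the tower. -/
def Good {X : Type u} [TopologicalSpace X] (φ : ℤ → X → X) (p : Set X × ℕ) : Prop :=
  IsClopen p.1 ∧ (∀ x, ∃ i : ℕ, 1 ≤ i ∧ i ≤ p.2 ∧ φ i x ∈ p.1) ∧
    (∀ x, ∃ i : ℕ, i ≤ p.2 ∧ φ (-(i : ℤ)) x ∈ p.1)

/-- The relation between consecutive levels. -/
def Nx {X : Type u} (φ : ℤ → X → X) (p p' : Set X × ℕ) : Prop :=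
  p'.1 ⊆ p.1 ∧ (∀ x ∈ p'.1, ∀ c : ℤ, 0 < c → φ c x ∈ p'.1 →
          ∃ w₁ w₂ w₃ w₄ : ℤ, φ w₁ x ∈ p.1 ∧ φ w₂ x ∈ p.1 ∧ φ w₃ x ∈ p.1 ∧ φ w₄ x ∈ p.1 ∧
            0 < w₁ ∧ w₁ < w₂ ∧ w₂ < w₃ ∧ w₃ < w₄ ∧ w₄ < c)

theorem main : S_MARK.{u} → S_ONE.{u} → S_TOWER.{u} := by
  intro hM hO X _ _ _ hB φ hφ L hL
  obtain ⟨N0, hN0, hsep, hcov⟩ := hM X hB φ hφ L hL
  have hg0 : Good φ (N0, 2 * L) := by
    refine ⟨hN0, fun x => ?_, fun x => ?_⟩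
    · obtain ⟨k, hk, hkN⟩ := hcov (φ L x)
      rw [abs_lt] at hk
      refine ⟨(k + L).toNat, by omega, by omega, ?_⟩
      have e : (((k + (L : ℤ)).toNat : ℕ) : ℤ) = k + L := Int.toNat_of_nonneg (by omega)
      show φ (((k + (L : ℤ)).toNat : ℕ) : ℤ) x ∈ N0
      rw [e, hφ.add]
      exact hkN
    · obtain ⟨k, hk, hkN⟩ := hcov (φ (-(L : ℤ)) x)
      rw [abs_lt] at hk
      refine ⟨(L - k).toNat, by omega, ?_⟩
      have e : -((((L : ℤ) - k).toNat : ℕ) : ℤ) = k + -(L : ℤ) := by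
        rw [Int.toNat_of_nonneg (by omega)]; ring
      show φ (-((((L : ℤ) - k).toNat : ℕ) : ℤ)) x ∈ N0
      rw [e, hφ.add]
      exact hkN
  have hstep : ∀ p : {p : Set X × ℕ // Good φ p}, ∃ p' : {p : Set X × ℕ // Good φ p},
      Nx φ p.1 p'.1 := by
    rintro ⟨⟨N, b⟩, h1, h2, h3⟩
    obtain ⟨N', b', g1, g2, g3, g4, g5⟩ := hO X hB φ hφ N b h1 h2
    exact ⟨⟨(N', b'), g1, g3, g4⟩, g2, g5⟩
  choose nx hnx using hstep
  let seq : ℕ → {p : Set X × ℕ // Good φ p} := fun n => Nat.rec ⟨(N0, 2 * L), hg0⟩ (fun _ p => nx p) n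
  have hseq0 : seq 0 = ⟨(N0, 2 * L), hg0⟩ := rfl
  have hseq : ∀ j, Nx φ (seq j).1 (seq (j + 1)).1 := fun j => hnx (seq j)
  refine ⟨fun j => (seq j).1.2, fun j => (seq j).1.1, fun j => (seq j).2.1, fun x => ?_⟩
  refine ⟨?_, ?_, ?_, ?_, ?_⟩
  · intro j k hk
    exact (hseq j).1 hk
  · intro j k
    obtain ⟨i, hi1, hi2, hi3⟩ := (seq j).2.2.1 (φ k x)
    refine ⟨i, hi1, hi2, ?_⟩
    show φ (k + (i : ℤ)) x ∈ (seq j).1.1
    rw [add_comm, hφ.add]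
    exact hi3
  · intro j k
    obtain ⟨i, hi2, hi3⟩ := (seq j).2.2.2 (φ k x)
    refine ⟨i, hi2, ?_⟩
    show φ (k - (i : ℤ)) x ∈ (seq j).1.1
    rw [sub_eq_add_neg, add_comm, hφ.add]
    exact hi3
  · intro a ha b hb hab
    by_contra hcon
    push Not at hcon
    have ha' : φ a x ∈ N0 := ha
    have hb' : φ b x ∈ N0 := hb
    have h := hsep (φ a x) ha' (b - a) (by rw [abs_pos]; omega)
      (by rw [abs_of_pos (by omega)]; exact hcon)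
    apply h
    rw [← hφ.add, sub_add_cancel]
    exact hb'
  · intro j a ha b hb hab
    have ha' : φ a x ∈ (seq (j + 1)).1.1 := ha
    have hb' : φ b x ∈ (seq (j + 1)).1.1 := hb
    obtain ⟨w₁, w₂, w₃, w₄, h1, h2, h3, h4, c0, c1, c2, c3, c4⟩ :=
      (hseq j).2 (φ a x) ha' (b - a) (by omega) (by rw [← hφ.add, sub_add_cancel]; exact hb')
    rw [← hφ.add] at h1 h2 h3 h4
    exact ⟨w₁ + a, h1, w₂ + a, h2, w₃ + a, h3, w₄ + a, h4, by omega, by omega, by omega,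
      by omega, by omega⟩

end Pool.Agent.R944.TO.Tower
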